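import Pool.Agent.H552R2.Fix

/-!
The gap region of the oracle: strings `false :: y`. In every length, at most a third or at least
two thirds of the strings are present. Modifying such a set at few places.
-/

namespace Pool.Agent.H552R2

open Function

/-- the position of `y` in the gap region -/
def dp {n : ℕ} (y : Fin n → Bool) : List Bool := false :: List.ofFn y

theorem dp_inj {n : ℕ} : Injective (dp (n := n)) := by
  intro y y' h
  unfold dp at h
  simp only [List.cons.injEq, true_and] at h
  exact List.ofFn_injective h

@[simp] theorem dp_length {n : ℕ} (y : Fin n → Bool) : (dp y).length = n + 1 := by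
  simp [dp]

open Classical in
/-- the part of the oracle in the gap region of length `n` -/
noncomputable def dset (n : ℕ) (A : Set (List Bool)) : Finset (Fin n → Bool) :=
  Finset.univ.filter (fun y => dp y ∈ A)

theorem mem_dset {n : ℕ} {A : Set (List Bool)} {y : Fin n → Bool} :
    y ∈ dset n A ↔ dp y ∈ A := by
  classical
  simp [dset]

/-- the gap condition -/
def Bal (A : Set (List Bool)) : Prop :=
  ∀ n, 3 * (dset n A).card ≤ 2 ^ n ∨ 2 * 2 ^ n ≤ 3 * (dset n A).card

theorem dset_congr {n : ℕ} {A A' : Set (List Bool)}
    (h : ∀ y : Fin n → Bool, (dp y ∈ A ↔ dp y ∈ A')) : dset n A = dset n A' := by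
  ext y
  rw [mem_dset, mem_dset, h y]

/-- changing one bit -/
def setb (A : Set (List Bool)) (u : List Bool) (P : Prop) : Set (List Bool) :=
  {z | (z = u ∧ P) ∨ (z ≠ u ∧ z ∈ A)}

theorem mem_setb_self (A : Set (List Bool)) (u : List Bool) (P : Prop) :
    u ∈ setb A u P ↔ P := by
  simp [setb]

theorem mem_setb_ne (A : Set (List Bool)) {u z : List Bool} (P : Prop) (h : z ≠ u) :
    z ∈ setb A u P ↔ z ∈ A := by
  simp [setb, h]

theorem dset_setb_true {n : ℕ} (A : Set (List Bool)) (y : Fin n → Bool) {P : Prop} (hP : P) :
    dset n (setb A (dp y) P) = insert y (dset n A) := by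
  ext y'
  rw [mem_dset, Finset.mem_insert, mem_dset]
  by_cases h : y' = y
  · subst h
    rw [mem_setb_self]
    simp [hP]
  · rw [mem_setb_ne _ _ (fun h' => h (dp_inj h'))]
    simp [h]

theorem dset_setb_false {n : ℕ} (A : Set (List Bool)) (y : Fin n → Bool) {P : Prop}
    (hP : ¬ P) : dset n (setb A (dp y) P) = (dset n A).erase y := by
  ext y'
  rw [mem_dset, Finset.mem_erase, mem_dset]
  by_cases h : y' = y
  · subst h
    rw [mem_setb_self]
    simp [hP]
  · rw [mem_setb_ne _ _ (fun h' => h (dp_inj h'))]
    simp [h]

theorem dset_setb_other {n : ℕ} (A : Set (List Bool)) (u : List Bool) (P : Prop)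
    (h : ∀ y : Fin n → Bool, u ≠ dp y) : dset n (setb A u P) = dset n A := by
  refine dset_congr (fun y => mem_setb_ne _ _ (fun h' => h y h'.symm))

theorem dset_setb_len {n k : ℕ} (A : Set (List Bool)) (y : Fin k → Bool) (P : Prop)
    (h : n ≠ k) : dset n (setb A (dp y) P) = dset n A := by
  refine dset_setb_other _ _ _ (fun y' h' => h ?_)
  have := congrArg List.length h'
  simp only [dp_length] at this
  omega

theorem exists_avoid {n : ℕ} (X : Finset (Fin n → Bool)) (Y : Finset (List Bool))
    (h : Y.card < X.card) : ∃ y ∈ X, dp y ∉ Y := by
  classical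
  by_contra hcon
  push Not at hcon
  have h1 : X.image dp ⊆ Y := by
    intro z hz
    obtain ⟨y, hy, rfl⟩ := Finset.mem_image.1 hz
    exact hcon y hy
  have h2 := Finset.card_le_card h1
  rw [Finset.card_image_of_injective _ dp_inj] at h2
  omega

theorem comp1 (A A' : Set (List Bool)) (hA : Bal A) (V W : Finset (List Bool)) (K : ℕ)
    (hK : 3 * V.card + 9 * W.card + 3 ≤ K)
    (hsm : ∀ (n : ℕ) (y : Fin n → Bool), 2 ^ n < K → dp y ∈ W → (dp y ∈ A' ↔ dp y ∈ A))
    (U : Finset (List Bool)) : U ⊆ W →
    ∃ (G : Set (List Bool)) (B : Finset (List Bool)), Bal G ∧ (∀ u ∈ U, (u ∈ G ↔ u ∈ A')) ∧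
      (∀ z, z ∉ B → (z ∈ G ↔ z ∈ A)) ∧ B.card ≤ 2 * U.card ∧
      (∀ z ∈ B, z ∈ V ∪ W → z ∈ U ∧ ¬ (z ∈ A' ↔ z ∈ A)) ∧
      (∀ z ∈ B, z ∉ W → ∃ (n : ℕ) (y : Fin n → Bool), z = dp y ∧ K ≤ 2 ^ n ∧
        ∃ u ∈ W, u.length = z.length ∧ ¬ (u ∈ A' ↔ u ∈ A)) := by
  classical
  induction U using Finset.induction_on with
  | empty =>
      intro _
      exact ⟨A, ∅, hA, by simp, fun z _ => Iff.rfl, by simp, by simp, by simp⟩
  | insert u U' huU ih =>
      intro hUW
      have huW : u ∈ W := hUW (Finset.mem_insert_self _ _)
      obtain ⟨G, B, hG, hGU, hGB, hBc, hB1, hB2⟩ :=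
        ih (fun z hz => hUW (Finset.mem_insert_of_mem hz))
      have hcard : (insert u U').card = U'.card + 1 := Finset.card_insert_of_notMem huU
      by_cases hu : (u ∈ G ↔ u ∈ A')
      · refine ⟨G, B, hG, ?_, hGB, by omega, ?_, hB2⟩
        · intro z hz
          rcases Finset.mem_insert.1 hz with rfl | hz
          · exact hu
          · exact hGU z hz
        · intro z hz hz'
          obtain ⟨h1, h2⟩ := hB1 z hz hz'
          exact ⟨Finset.mem_insert_of_mem h1, h2⟩
      · have huB : u ∉ B := fun h => huU (hB1 u h (Finset.mem_union_right _ huW)).1
        have huA : u ∈ G ↔ u ∈ A := hGB u huB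
        have hne : ¬ (u ∈ A' ↔ u ∈ A) := by
          rw [← huA]
          exact fun h => hu h.symm
        by_cases hbal : Bal (setb G u (u ∈ A'))
        · refine ⟨setb G u (u ∈ A'), insert u B, hbal, ?_, ?_, ?_, ?_, ?_⟩
          · intro z hz
            rcases Finset.mem_insert.1 hz with rfl | hz
            · exact mem_setb_self _ _ _
            · have : z ≠ u := fun h => huU (h ▸ hz)
              rw [mem_setb_ne _ _ this]
              exact hGU z hz
          · intro z hz
            rw [Finset.mem_insert, not_or] at hz
            rw [mem_setb_ne _ _ hz.1]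
            exact hGB z hz.2
          · rw [Finset.card_insert_of_notMem huB, hcard]
            omega
          · intro z hz hz'
            rcases Finset.mem_insert.1 hz with rfl | hz
            · exact ⟨Finset.mem_insert_self _ _, hne⟩
            · obtain ⟨h1, h2⟩ := hB1 z hz hz'
              exact ⟨Finset.mem_insert_of_mem h1, h2⟩
          · intro z hz hz'
            rcases Finset.mem_insert.1 hz with rfl | hz
            · exact absurd huW hz'
            · exact hB2 z hz hz'
        · -- compensation
          unfold Bal at hbal
          push Not at hbal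
          obtain ⟨n, hn1, hn2⟩ := hbal
          obtain ⟨y, rfl⟩ : ∃ y : Fin n → Bool, u = dp y := by
            by_contra hcon
            push Not at hcon
            rw [dset_setb_other G u _ hcon] at hn1 hn2
            rcases hG n with h | h <;> omega
          have hKn : K ≤ 2 ^ n := by
            by_contra hcon
            exact hne (hsm n y (by omega) huW)
          have hVWB : (V ∪ W ∪ B).card ≤ V.card + 3 * W.card := by
            have h1 := Finset.card_union_le (V ∪ W) B
            have h2 := Finset.card_union_le V W
            have h3 : (insert (dp y) U').card ≤ W.card := Finset.card_le_card hUW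
            omega
          -- choose a compensating position
          obtain ⟨y', P, hy'V, hy'y, hbal'⟩ : ∃ (y' : Fin n → Bool) (P : Prop),
              dp y' ∉ V ∪ W ∪ B ∧ y' ≠ y ∧
              (dset n (setb (setb G (dp y) (dp y ∈ A')) (dp y') P)).card = (dset n G).card := by
            by_cases hyA : dp y ∈ A'
            · have hyG : dp y ∉ G := fun h => hu ⟨fun _ => hyA, fun _ => h⟩
              have hyD : y ∉ dset n G := fun h => hyG (mem_dset.1 h)
              have e1 : dset n (setb G (dp y) (dp y ∈ A')) = insert y (dset n G) :=
                dset_setb_true G y hyA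
              rw [e1, Finset.card_insert_of_notMem hyD] at hn1 hn2
              have hD : (V ∪ W ∪ B).card < (dset n G).card := by
                rcases hG n with h | h <;> omega
              obtain ⟨y', hy'1, hy'2⟩ := exists_avoid (dset n G) _ hD
              have hyy : y' ≠ y := fun h => hyD (h ▸ hy'1)
              refine ⟨y', False, hy'2, hyy, ?_⟩
              rw [dset_setb_false _ _ not_false, e1,
                Finset.card_erase_of_mem (Finset.mem_insert_of_mem hy'1),
                Finset.card_insert_of_notMem hyD]
              omega
            · have hyG : dp y ∈ G := by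
                by_contra h
                exact hu ⟨fun h' => absurd h' h, fun h' => absurd h' hyA⟩
              have hyD : y ∈ dset n G := mem_dset.2 hyG
              have e1 : dset n (setb G (dp y) (dp y ∈ A')) = (dset n G).erase y :=
                dset_setb_false G y hyA
              have hpos : 0 < (dset n G).card := Finset.card_pos.2 ⟨y, hyD⟩
              rw [e1, Finset.card_erase_of_mem hyD] at hn1 hn2
              have hcc : (dset n G)ᶜ.card = 2 ^ n - (dset n G).card := by
                rw [Finset.card_compl]
                simp
              have hle : (dset n G).card ≤ 2 ^ n := by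
                have := Finset.card_le_univ (dset n G)
                simpa using this
              have hD : (V ∪ W ∪ B).card < (dset n G)ᶜ.card := by
                rw [hcc]
                rcases hG n with h | h <;> omega
              obtain ⟨y', hy'1, hy'2⟩ := exists_avoid (dset n G)ᶜ _ hD
              have hy'D : y' ∉ dset n G := Finset.mem_compl.1 hy'1
              have hyy : y' ≠ y := fun h => hy'D (h ▸ hyD)
              refine ⟨y', True, hy'2, hyy, ?_⟩
              rw [dset_setb_true _ _ trivial, e1, Finset.card_insert_of_notMem
                (fun h => hy'D (Finset.mem_of_mem_erase h)), Finset.card_erase_of_mem hyD]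
              omega
          have hne2 : dp y' ≠ dp y := fun h => hy'y (dp_inj h)
          simp only [Finset.mem_union, not_or] at hy'V
          obtain ⟨⟨hy'V, hy'W⟩, hy'B⟩ := hy'V
          refine ⟨setb (setb G (dp y) (dp y ∈ A')) (dp y') P, insert (dp y') (insert (dp y) B),
            ?_, ?_, ?_, ?_, ?_, ?_⟩
          · intro k
            by_cases hk : k = n
            · subst hk
              rw [hbal']
              exact hG k
            · rw [dset_setb_len _ _ _ hk, dset_setb_len _ _ _ hk]
              exact hG k
          · intro z hz
            have hzW : z ∈ W := hUW hz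
            have hz' : z ≠ dp y' := fun h => hy'W (h ▸ hzW)
            rw [mem_setb_ne _ _ hz']
            rcases Finset.mem_insert.1 hz with rfl | hz
            · exact mem_setb_self _ _ _
            · have : z ≠ dp y := fun h => huU (h ▸ hz)
              rw [mem_setb_ne _ _ this]
              exact hGU z hz
          · intro z hz
            simp only [Finset.mem_insert, not_or] at hz
            rw [mem_setb_ne _ _ hz.1, mem_setb_ne _ _ hz.2.1]
            exact hGB z hz.2.2
          · rw [hcard]
            have h1 := Finset.card_insert_le (dp y') (insert (dp y) B)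
            have h2 := Finset.card_insert_le (dp y) B
            omega
          · intro z hz hz'
            rcases Finset.mem_insert.1 hz with rfl | hz
            · rcases Finset.mem_union.1 hz' with h | h
              · exact absurd h hy'V
              · exact absurd h hy'W
            · rcases Finset.mem_insert.1 hz with rfl | hz
              · exact ⟨Finset.mem_insert_self _ _, hne⟩
              · obtain ⟨h1, h2⟩ := hB1 z hz hz'
                exact ⟨Finset.mem_insert_of_mem h1, h2⟩
          · intro z hz hz'
            rcases Finset.mem_insert.1 hz with rfl | hz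
            · exact ⟨n, y', rfl, hKn, dp y, huW, by simp, hne⟩
            · rcases Finset.mem_insert.1 hz with rfl | hz
              · exact absurd huW hz'
              · exact hB2 z hz hz'

end Pool.Agent.H552R2
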