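import Pool.Agent.Helper556.Reduce

/-!
Complexity classes relative to an oracle, over the oracle machines of
`Pool.Agent.Helper556.OM`, and locality of computations.
-/

namespace Pool.Agent.H552R2

open Function
open Pool.Agent.Helper556.OM

/-- A machine that never makes a nondeterministic step. -/
def Det (M : Machine) : Prop := ∀ (q : M.Q) (f : Bool → M.Q), M.act q ≠ .guess f

/-- The class `P` relative to the oracle `A`. -/
def InP (A : Set (List Bool)) (L : Set (List Bool)) : Prop :=
  ∃ (M : Machine) (d : ℕ), Det M ∧ ∀ x : List Bool, ∀ w : ℕ → Bool,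
    M.Halted (M.run A (x.length ^ d + d) w (M.init x)) ∧
    (x ∈ L ↔ M.Accepts (M.run A (x.length ^ d + d) w (M.init x)))

/-- Extension of a finite sequence of coin flips by zeros. -/
def ext {T : ℕ} (w : Fin T → Bool) : ℕ → Bool := fun i => if h : i < T then w ⟨i, h⟩ else false

open Classical in
/-- The class `BPP` relative to the oracle `A`. The machine flips a fair coin at every guessing
step; the `i`-th bit of `w` is used if the `i`-th step is a guessing step. -/
def InBPP (A : Set (List Bool)) (L : Set (List Bool)) : Prop :=
  ∃ (M : Machine) (d : ℕ), ∀ x : List Bool,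
    (∀ w : ℕ → Bool, M.Halted (M.run A (x.length ^ d + d) w (M.init x))) ∧
    2 * 2 ^ (x.length ^ d + d) ≤ 3 * (Finset.univ.filter
      (fun w : Fin (x.length ^ d + d) → Bool =>
        (M.Accepts (M.run A (x.length ^ d + d) (ext w) (M.init x)) ↔ x ∈ L))).card

/-! ### locality -/

/-- the string asked at a configuration -/
def asked (M : Machine) (c : M.Config) : List (List Bool) :=
  match M.act c.1 with
  | .ask k _ => [c.2 k]
  | _ => []

theorem asked_length_le (M : Machine) (c : M.Config) : (asked M c).length ≤ 1 := by
  unfold asked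
  split <;> simp

theorem step_congr (M : Machine) {A A' : Set (List Bool)} (g : Bool) (c : M.Config)
    (h : ∀ z ∈ asked M c, (z ∈ A ↔ z ∈ A')) : M.step A g c = M.step A' g c := by
  classical
  unfold asked at h
  unfold Machine.step
  cases hact : M.act c.1 with
  | ask k q =>
      rw [hact] at h
      have h1 : (c.2 k ∈ A) ↔ (c.2 k ∈ A') := h _ (by simp)
      simp only [h1]
  | push k b q => rfl
  | pop k q => rfl
  | read k q => rfl
  | guess q => rfl
  | halt b => rfl

/-- the strings asked in the first `t` steps -/
noncomputable def qs (M : Machine) (A : Set (List Bool)) :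
    ℕ → (ℕ → Bool) → M.Config → List (List Bool)
  | 0, _, _ => []
  | t + 1, w, c => asked M c ++ qs M A t (fun i => w (i + 1)) (M.step A (w 0) c)

theorem qs_length_le (M : Machine) (A : Set (List Bool)) : ∀ (t : ℕ) (w : ℕ → Bool)
    (c : M.Config), (qs M A t w c).length ≤ t
  | 0, _, _ => by simp [qs]
  | t + 1, w, c => by
      rw [qs, List.length_append]
      have h1 := asked_length_le M c
      have h2 := qs_length_le M A t (fun i => w (i + 1)) (M.step A (w 0) c)
      omega

theorem run_congr_qs (M : Machine) {A A' : Set (List Bool)} : ∀ (t : ℕ) (w : ℕ → Bool)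
    (c : M.Config), (∀ z ∈ qs M A t w c, (z ∈ A ↔ z ∈ A')) → M.run A t w c = M.run A' t w c
  | 0, _, _, _ => rfl
  | t + 1, w, c, h => by
      rw [Machine.run, Machine.run]
      have h1 : M.step A (w 0) c = M.step A' (w 0) c :=
        step_congr M (w 0) c (fun z hz => h z (by rw [qs]; exact List.mem_append_left _ hz))
      rw [← h1]
      exact run_congr_qs M t _ _ (fun z hz => h z (by rw [qs]; exact List.mem_append_right _ hz))

theorem qs_len (M : Machine) (A : Set (List Bool)) : ∀ (t : ℕ) (w : ℕ → Bool)
    (c : M.Config) (L : ℕ), (∀ k, (c.2 k).length ≤ L) → ∀ z ∈ qs M A t w c, z.length ≤ L + t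
  | 0, _, _, _, _, z, hz => by simp [qs] at hz
  | t + 1, w, c, L, hL, z, hz => by
      rw [qs, List.mem_append] at hz
      rcases hz with hz | hz
      · unfold asked at hz
        split at hz
        · rename_i k f hk
          simp only [List.mem_singleton] at hz
          subst hz
          have := hL k
          omega
        · simp at hz
      · have := qs_len M A t (fun i => w (i + 1)) (M.step A (w 0) c) (L + 1)
          (fun k => by
            have h1 := Machine.step_length (A := A) M (w 0) c k
            have h2 := hL k
            omega) z hz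
        omega

theorem init_len (M : Machine) (x : List Bool) (k : ℕ) :
    ((M.init x).2 k).length ≤ x.length := by
  simp only [Machine.init]
  split_ifs <;> simp

/-- accepting computation -/
def Acc (M : Machine) (d : ℕ) (A : Set (List Bool)) (x : List Bool) (w : ℕ → Bool) : Prop :=
  M.Accepts (M.run A (x.length ^ d + d) w (M.init x))

/-- the strings asked on input `x` -/
noncomputable def Qs (M : Machine) (d : ℕ) (A : Set (List Bool)) (x : List Bool)
    (w : ℕ → Bool) : List (List Bool) :=
  qs M A (x.length ^ d + d) w (M.init x)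

theorem Qs_length_le (M : Machine) (d : ℕ) (A : Set (List Bool)) (x : List Bool)
    (w : ℕ → Bool) : (Qs M d A x w).length ≤ x.length ^ d + d := qs_length_le _ _ _ _ _

theorem Qs_len (M : Machine) (d : ℕ) (A : Set (List Bool)) (x : List Bool)
    (w : ℕ → Bool) : ∀ z ∈ Qs M d A x w, z.length ≤ x.length + (x.length ^ d + d) :=
  qs_len _ _ _ _ _ _ (init_len M x)

theorem Acc_congr (M : Machine) (d : ℕ) {A A' : Set (List Bool)} (x : List Bool)
    (w : ℕ → Bool) (h : ∀ z ∈ Qs M d A x w, (z ∈ A ↔ z ∈ A')) :
    Acc M d A x w ↔ Acc M d A' x w := by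
  unfold Acc
  rw [run_congr_qs M _ _ _ h]

/-- nondeterministic acceptance -/
def AccN (M : Machine) (d : ℕ) (A : Set (List Bool)) (x : List Bool) : Prop :=
  ∃ w, Acc M d A x w

theorem AccN_congr (M : Machine) (d : ℕ) {A A' : Set (List Bool)} (x : List Bool)
    (h : ∀ z : List Bool, z.length ≤ x.length + (x.length ^ d + d) → (z ∈ A ↔ z ∈ A')) :
    AccN M d A x ↔ AccN M d A' x :=
  exists_congr (fun w => Acc_congr M d x w (fun z hz => h z (Qs_len M d A x w z hz)))

end Pool.Agent.H552R2
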