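import Pool.Agent.H552R2.Path

/-!
All strings have small certificates, if the promised tasks are robust.
-/

namespace Pool.Agent.H552R2

open Function
open Pool.Agent.Helper556.OM

variable {tk : ℕ → Task}

/-- the positions in small gap regions -/
noncomputable def smallD (K : ℕ) : Finset (List Bool) :=
  (Finset.range (Nat.clog 2 K)).biUnion
    (fun n => (Finset.univ : Finset (Fin n → Bool)).image dp)

theorem mem_smallD {K n : ℕ} (y : Fin n → Bool) (h : 2 ^ n < K) : dp y ∈ smallD K := by
  classical
  refine Finset.mem_biUnion.2 ⟨n, Finset.mem_range.2 ?_, Finset.mem_image.2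
    ⟨y, Finset.mem_univ _, rfl⟩⟩
  exact (Nat.lt_clog_iff_pow_lt (by norm_num)).2 h

theorem of_mem_smallD {K : ℕ} {z : List Bool} (h : z ∈ smallD K) :
    ∃ (n : ℕ) (y : Fin n → Bool), z = dp y ∧ 2 ^ n < K := by
  classical
  obtain ⟨n, hn, hz⟩ := Finset.mem_biUnion.1 h
  obtain ⟨y, -, rfl⟩ := Finset.mem_image.1 hz
  exact ⟨n, y, rfl, (Nat.lt_clog_iff_pow_lt (by norm_num)).1 (Finset.mem_range.1 hn)⟩

theorem smallD_card (K : ℕ) (hK : 1 ≤ K) : (smallD K).card ≤ 2 * K := by
  classical
  have h1 : (smallD K).card ≤ ∑ n ∈ Finset.range (Nat.clog 2 K), 2 ^ n := by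
    refine Finset.card_biUnion_le.trans (Finset.sum_le_sum (fun n _ => ?_))
    refine Finset.card_image_le.trans ?_
    simp
  have h2 : ∑ n ∈ Finset.range (Nat.clog 2 K), 2 ^ n < 2 ^ (Nat.clog 2 K) := by
    have := Nat.geomSum_lt (m := 2) (n := Nat.clog 2 K)
      (s := Finset.range (Nat.clog 2 K)) (le_refl 2) (fun k hk => Finset.mem_range.1 hk)
    simpa using this
  have h3 : 2 ^ (Nat.clog 2 K) ≤ 2 * K := by
    rcases Nat.eq_or_lt_of_le hK with h | h
    · subst h; simp
    · have h4 := Nat.pow_pred_clog_lt_self (b := 2) (by norm_num) h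
      have h5 : 0 < Nat.clog 2 K := Nat.clog_pos (by norm_num) h
      obtain ⟨m, hm⟩ : ∃ m, Nat.clog 2 K = m + 1 := ⟨Nat.clog 2 K - 1, by omega⟩
      rw [hm] at h4 ⊢
      simp only [Nat.pred_succ] at h4
      rw [pow_succ]
      omega
  omega

theorem small_not_code {R : Set (ℕ × ℕ)} {K : ℕ} {z : List Bool} (h : z ∈ smallD K) :
    ¬ IsCode tk R z := by
  obtain ⟨n, y, rfl, -⟩ := of_mem_smallD h
  exact dp_not_code y

open Classical in
/-- the main argument: bounded error and a path function imply certificates -/
theorem cert_abs {p : Cond} {f : Set (List Bool) → Prop} {T : ℕ}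
    {acc : Set (List Bool) → (Fin T → Bool) → Prop} {c C N K : ℕ}
    (hU : ∀ A, Good tk p A → ∀ w, Cert tk p (fun A' => acc A' w) c A)
    (hrob : ∀ A, Good tk p A →
      2 * 2 ^ T ≤ 3 * (Finset.univ.filter (fun w : Fin T → Bool => (acc A w ↔ f A))).card)
    (P : Set (List Bool) → ℕ) (hN : ∀ A, P A < N)
    (hY : ∀ A, Good tk p A → ∃ U : Finset (List Bool), (∀ z ∈ U, ¬ IsCode tk p.R z) ∧
      U.card ≤ C ∧ ∀ A', Good tk p A' → Ag U A A' → P A ≤ P A' ∧
        (P A' = P A → (f A' ↔ f A)) ∧ (P A < P A' →
          ∃ W : Finset (List Bool), (∀ z ∈ W, ¬ IsCode tk p.R z) ∧ W.card ≤ c ∧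
            ∀ A'', Good tk p A'' → Ag U A A'' → Ag W A' A'' → P A < P A''))
    (hK : 3 * ((C + 3 * c * (2 * c)) + 3 * c * (2 * (C + 3 * c * (2 * c)))) +
      9 * ((C + 3 * c * (2 * c)) + c) + 3 ≤ K)
    {A : Set (List Bool)} (hA : Good tk p A) :
    ∃ S : Finset (List Bool), (∀ z ∈ S, ¬ IsCode tk p.R z) ∧
      S.card ≤ 3 * c * (2 * (C + 3 * c * (2 * c))) + 2 * K ∧
      ∀ A', Good tk p A' → Ag S A A' → (f A' ↔ f A) := by
  obtain ⟨H, hH1, hH2, hH3⟩ := hit hU hrob (2 * (C + 3 * c * (2 * c))) hA
  refine ⟨H ∪ smallD K, ?_, ?_, ?_⟩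
  · intro z hz
    rcases Finset.mem_union.1 hz with hz | hz
    · exact hH1 z hz
    · exact small_not_code hz
  · have h1 := Finset.card_union_le H (smallD K)
    have h2 := smallD_card K (by omega)
    omega
  · -- induction on the path number
    have key : ∀ m : ℕ, ∀ A', Good tk p A' → Ag (H ∪ smallD K) A A' → N - P A' = m →
        (f A' ↔ f A) := by
      intro m
      induction m using Nat.strong_induction_on with
      | _ m ih =>
        intro A' hA' hag hm
        by_contra hcon
        obtain ⟨U, hU1, hU2, hU3⟩ := hY A' hA'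
        obtain ⟨S1, hS1, hS2, hS3⟩ := hit hU hrob (2 * c) hA'
        have hVc : (U ∪ S1).card ≤ C + 3 * c * (2 * c) := by
          have := Finset.card_union_le U S1
          omega
        have hVn : ∀ z ∈ U ∪ S1, ¬ IsCode tk p.R z := by
          intro z hz
          rcases Finset.mem_union.1 hz with hz | hz
          · exact hU1 z hz
          · exact hS1 z hz
        -- oracles agreeing with `A'` on `U ∪ S1` and `H ∪ smallD K`
        have G1 : ∀ Gx, Good tk p Gx → Ag (U ∪ S1) A' Gx → Ag (H ∪ smallD K) A' Gx →
            (f Gx ↔ f A') := by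
          intro Gx hGx hag1 hag2
          obtain ⟨h1, h2, h3⟩ := hU3 Gx hGx (hag1.mono Finset.subset_union_left)
          rcases Nat.eq_or_lt_of_le h1 with h1 | h1
          · exact h2 h1.symm
          · exfalso
            obtain ⟨W, hW1, hW2, hW3⟩ := h3 h1
            have hVV : ((U ∪ S1) ∪ H).card ≤ (C + 3 * c * (2 * c)) +
                3 * c * (2 * (C + 3 * c * (2 * c))) := by
              have := Finset.card_union_le (U ∪ S1) H
              omega
            obtain ⟨A2, B, hA2, hA2W, hA2B, hBc, hB1, hB2⟩ := comp2 hA' hGx ((U ∪ S1) ∪ H) W hW1 K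
              (by omega) (fun n y hn => (hag2 _ (Finset.mem_union_right _ (mem_smallD y hn))).symm)
            have hBd : ∀ z ∈ B, z ∉ (U ∪ S1) ∪ H := by
              intro z hz hz'
              obtain ⟨-, h5⟩ := hB1 z hz (Finset.mem_union_left _ hz')
              rcases Finset.mem_union.1 hz' with hz' | hz'
              · exact h5 (hag1 z hz').symm
              · exact h5 (hag2 z (Finset.mem_union_left _ hz')).symm
            have hagA2 : Ag ((U ∪ S1) ∪ (H ∪ smallD K)) A' A2 := by
              intro z hz
              have hzc : ¬ IsCode tk p.R z := by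
                rcases Finset.mem_union.1 hz with hz | hz
                · exact hVn z hz
                · rcases Finset.mem_union.1 hz with hz | hz
                  · exact hH1 z hz
                  · exact small_not_code hz
              refine (hA2B z hzc (fun hzB => ?_)).symm
              rcases Finset.mem_union.1 hz with hz | hz
              · exact hBd z hzB (Finset.mem_union_left _ hz)
              · rcases Finset.mem_union.1 hz with hz | hz
                · exact hBd z hzB (Finset.mem_union_right _ hz)
                · obtain ⟨n, y, hy, hn⟩ := of_mem_smallD hz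
                  have := hB2 z hzB n y hy
                  omega
            have hPlt : P A' < P A2 := by
              refine hW3 A2 hA2 (hagA2.mono ?_) (fun z hz => (hA2W z hz).symm)
              exact Finset.subset_union_left.trans Finset.subset_union_left
            have hfA2 : f A2 ↔ f A := by
              have hNA := hN A2
              refine ih (N - P A2) (by omega) A2 hA2 (fun z hz => ?_) rfl
              exact (hag z hz).trans (hagA2 z (Finset.mem_union_right _ hz))
            have hfA2' : f A2 ↔ f A' := by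
              refine hS3 B A2 (by omega) hA2 hA2B ?_
              rw [Finset.disjoint_left]
              intro z hz hz'
              exact hBd z hz (Finset.mem_union_left _ (Finset.mem_union_right _ hz'))
            exact hcon (hfA2'.symm.trans hfA2)
        obtain ⟨A2, B, hA2, hA2W, hA2B, hBc, hB1, hB2⟩ := comp2 hA hA' H (U ∪ S1) hVn K
          (by omega) (fun n y hn => (hag _ (Finset.mem_union_right _ (mem_smallD y hn))).symm)
        have hBd : ∀ z ∈ B, z ∉ H := by
          intro z hz hz'
          obtain ⟨-, h5⟩ := hB1 z hz (Finset.mem_union_left _ hz')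
          exact h5 (hag z (Finset.mem_union_left _ hz')).symm
        have hfA2 : f A2 ↔ f A := by
          refine hH3 B A2 (by omega) hA2 hA2B ?_
          rw [Finset.disjoint_left]
          exact hBd
        have hfA2' : f A2 ↔ f A' := by
          refine G1 A2 hA2 (fun z hz => (hA2W z hz).symm) (fun z hz => ?_)
          have hzc : ¬ IsCode tk p.R z := by
            rcases Finset.mem_union.1 hz with hz | hz
            · exact hH1 z hz
            · exact small_not_code hz
          rw [← hag z hz]
          refine (hA2B z hzc (fun hzB => ?_)).symm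
          rcases Finset.mem_union.1 hz with hz | hz
          · exact hBd z hzB hz
          · obtain ⟨n, y, hy, hn⟩ := of_mem_smallD hz
            have := hB2 z hzB n y hy
            omega
        exact hcon (hfA2'.symm.trans hfA2)
    intro A' hA' hag
    exact key _ A' hA' hag rfl

theorem param_bound (k : ℕ) :
    3 * (k * (k + 1)) * (2 * (k * (k * (k + 1)) + 3 * (k * (k + 1)) * (2 * (k * (k + 1))))) +
      2 * (3 * ((k * (k * (k + 1)) + 3 * (k * (k + 1)) * (2 * (k * (k + 1)))) +
        3 * (k * (k + 1)) * (2 * (k * (k * (k + 1)) + 3 * (k * (k + 1)) *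
          (2 * (k * (k + 1)))))) +
      9 * ((k * (k * (k + 1)) + 3 * (k * (k + 1)) * (2 * (k * (k + 1)))) + k * (k + 1)) + 3)
      ≤ 500 * (k + 1) ^ 6 := by
  nlinarith [sq_nonneg k, Nat.zero_le (k ^ 6), Nat.zero_le (k ^ 5), Nat.zero_le (k ^ 4),
    Nat.zero_le (k ^ 3), Nat.zero_le (k ^ 2), Nat.zero_le k]

/-- values of bounded error tasks are certified -/
theorem cert_val_false {p : Cond} {s : Task} (hs : s.kind = false) {x : List Bool}
    (hk : CertUp tk p (s.t x.length)) (hok : ∀ A, Good tk p A → s.ok A x)
    {A : Set (List Bool)} (hA : Good tk p A) :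
    Cert tk p (fun A' => s.val A' x) (500 * (s.t x.length + 1) ^ 6) A := by
  classical
  have hb : s.b x.length = x.length + (x.length ^ s.d0 + s.d0) := rfl
  have ht : s.t x.length = (x.length + (x.length ^ s.d + s.d)) +
    (s.b x.length + ((s.b x.length) ^ s.e + s.e)) := rfl
  have hval : ∀ A' : Set (List Bool), s.val A' x ↔ Acc s.M0.toM s.d0 (BN s.N.toM s.e A') x w0 :=
    fun A' => by
      unfold Task.val
      rw [if_neg (by rw [hs]; exact Bool.false_ne_true)]
  have hY := pathY hk s.M0.toM s.N.toM s.e (x.length ^ s.d0 + s.d0) w0 (s.M0.toM.init x)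
    x.length (init_len _ x) (fun q hq => by
      have h1 : q.length ≤ s.b x.length := by rw [hb]; exact hq
      have := Nat.pow_le_pow_left h1 s.e
      omega)
  obtain ⟨S, h1, h2, h3⟩ := cert_abs (tk := tk) (p := p) (f := fun A' => s.val A' x)
    (T := x.length ^ s.d + s.d) (acc := fun A' w => Acc s.M.toM s.d A' x (ext w))
    (c := s.t x.length * (s.t x.length + 1))
    (C := s.t x.length * (s.t x.length * (s.t x.length + 1)))
    (N := 2 ^ (x.length ^ s.d0 + s.d0)) (K := _)
    (fun A' hA' w => cert_Acc hk s.M.toM s.d x (by omega) (ext w) hA')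
    (fun A' hA' => by
      have h := hok A' hA'
      unfold Task.ok at h
      rw [if_neg (by rw [hs]; exact Bool.false_ne_true)] at h
      simp only [hval]
      exact h)
    (fun A' => pathN s.M0.toM (BN s.N.toM s.e A') (x.length ^ s.d0 + s.d0) w0 (s.M0.toM.init x))
    (fun A' => pathN_lt _ _ _ _ _)
    (fun A' hA' => by
      obtain ⟨U, hU1, hU2, hU3⟩ := hY A' hA'
      refine ⟨U, hU1, hU2.trans (Nat.mul_le_mul_right _ (by omega)), fun A'' hA'' hag => ?_⟩
      obtain ⟨h1, h2, h3⟩ := hU3 A'' hA'' hag
      refine ⟨h1, fun h => ?_, h3⟩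
      have hrun := h2 h
      rw [hval, hval]
      unfold Acc
      rw [hrun])
    le_rfl hA
  exact ⟨S, h1, h2.trans (param_bound _), h3⟩

/-- values of the tasks of the other kind are certified -/
theorem cert_val_true {p : Cond} {s : Task} (hs : s.kind = true) {x : List Bool}
    (hk : CertUp tk p (s.t x.length)) (hok : ∀ A, Good tk p A → s.ok A x)
    {A : Set (List Bool)} (hA : Good tk p A) :
    Cert tk p (fun A' => s.val A' x) (500 * (s.t x.length + 1) ^ 6) A := by
  classical
  have hb : s.b x.length = x.length + (x.length ^ s.d0 + s.d0) := rfl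
  have ht : s.t x.length = (x.length + (x.length ^ s.d + s.d)) +
    (s.b x.length + ((s.b x.length) ^ s.e + s.e)) := rfl
  have hval : ∀ A' : Set (List Bool), s.val A' x ↔ AccN s.M.toM s.d A' x :=
    fun A' => by
      unfold Task.val
      rw [if_pos hs]
  have hok' : ∀ A' : Set (List Bool), Good tk p A' →
      (AccN s.M.toM s.d A' x ↔ ¬ AccN s.N.toM s.e A' x) := fun A' hA' => by
    have h := hok A' hA'
    unfold Task.ok at h
    rwa [if_pos hs] at h
  have hbound : s.t x.length * (s.t x.length + 1) ≤ 500 * (s.t x.length + 1) ^ 6 := by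
    have h1 : (s.t x.length + 1) ^ 2 ≤ (s.t x.length + 1) ^ 6 :=
      Nat.pow_le_pow_right (by omega) (by norm_num)
    nlinarith
  by_cases h : AccN s.M.toM s.d A x
  · obtain ⟨S, h1, h2, h3⟩ := cert_AccN hk s.M.toM s.d x (by omega) hA h
    refine ⟨S, h1, h2.trans hbound, fun A' hA' hag => ?_⟩
    simp only [hval]
    exact h3 A' hA' hag
  · have hN : AccN s.N.toM s.e A x := by
      by_contra hcon
      exact h ((hok' A hA).2 hcon)
    have hle : x.length ^ s.e ≤ (s.b x.length) ^ s.e := Nat.pow_le_pow_left (by omega) _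
    obtain ⟨S, h1, h2, h3⟩ := cert_AccN hk s.N.toM s.e x (by omega) hA hN
    refine ⟨S, h1, h2.trans hbound, fun A' hA' hag => ?_⟩
    simp only [hval]
    rw [hok' A' hA', hok' A hA]
    exact not_congr (h3 A' hA' hag)

variable (tk) in
/-- the promised tasks are in order for all allowed oracles -/
def Robust (p : Cond) : Prop :=
  ∀ A, Good tk p A → ∀ i m, (i, m) ∈ p.R → ∀ x, (tk i).ok A x

theorem certUp_of_robust {p : Cond} (hp : Robust tk p) (k : ℕ) : CertUp tk p k := by
  induction k using Nat.strong_induction_on with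
  | _ k ih =>
    intro z hz A hA
    by_cases hc : IsCode tk p.R z
    · obtain ⟨i, m, x, hR, rfl⟩ := hc
      have hlt := t_lt_code (tk i) i m x
      have hk := ih ((tk i).t x.length) (by omega)
      have hcert : Cert tk p (fun A' => (tk i).val A' x)
          (500 * ((tk i).t x.length + 1) ^ 6) A := by
        cases hkd : (tk i).kind with
        | false => exact cert_val_false hkd hk (fun A' hA' => hp A' hA' i m hR x) hA
        | true => exact cert_val_true hkd hk (fun A' hA' => hp A' hA' i m hR x) hA
      obtain ⟨S, h1, h2, h3⟩ := hcert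
      refine ⟨S, h1, h2.trans ?_, fun A' hA' hag => ?_⟩
      · rw [codeStr_length]
        unfold Task.pad
        omega
      · change (codeStr (tk i) i m x ∈ A' ↔ codeStr (tk i) i m x ∈ A)
        rw [hA'.2.1 i m x hR, hA.2.1 i m x hR]
        exact h3 A' hA' hag
    · refine ⟨{z}, by simpa using hc, by simp, fun A' _ hag => ?_⟩
      exact (hag z (Finset.mem_singleton_self z)).symm

end Pool.Agent.H552R2
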