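import Pool.Agent.H552R2.Upper

/-!
The set of `x` whose code string belongs to the oracle is in `P` relative to the oracle.
-/

namespace Pool.Agent.H552R2

open Function
open Pool.Agent.Helper556.OM

variable {A : Set (List Bool)}

/-! ### a machine made of a program and one question -/

theorem act_ne_guess : ∀ (c : Cmd) {Q : Type} (em : CC c → Q) (ex : Q) (s : CC c)
    (f : Bool → Q), CC.act c em ex s ≠ .guess f
  | .skip, _, _, _, _, _ => by simp [CC.act]
  | .push _ _, _, _, _, _, _ => by simp [CC.act]
  | .pop _, _, _, _, _, _ => by simp [CC.act]
  | .seq p q, _, em, ex, s, f => by
      cases s with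
      | inl s => exact act_ne_guess p _ _ s f
      | inr s => exact act_ne_guess q _ _ s f
  | .br r p q u, _, em, ex, s, f => by
      cases s with
      | none => simp [CC.act]
      | some s =>
          cases s with
          | inl s => exact act_ne_guess p _ _ s f
          | inr s =>
              cases s with
              | inl s => exact act_ne_guess q _ _ s f
              | inr s => exact act_ne_guess u _ _ s f
  | .ask r p q, _, em, ex, s, f => by
      cases s with
      | none => simp [CC.act]
      | some s =>
          cases s with
          | inl s => exact act_ne_guess p _ _ s f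
          | inr s => exact act_ne_guess q _ _ s f
  | .loop r p, _, em, ex, s, f => by
      cases s with
      | none => simp [CC.act]
      | some s => exact act_ne_guess p _ _ s f

/-- run the program `P`, then ask stack `r` and give the answer -/
def decM (P : Cmd) (r : ℕ) : Machine where
  Q := CC P ⊕ Option Bool
  fin := by
    have := CC.finite P
    infer_instance
  start := Sum.inl (CC.start P)
  act := fun s =>
    match s with
    | Sum.inl s => CC.act P Sum.inl (Sum.inr none) s
    | Sum.inr none => .ask r (fun b => Sum.inr (some b))
    | Sum.inr (some b) => .halt b

theorem decM_det (P : Cmd) (r : ℕ) : Det (decM P r) := by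
  intro q f h
  cases q with
  | inl s => exact act_ne_guess P _ _ s f h
  | inr o =>
      cases o with
      | none => simp [decM] at h
      | some b => simp [decM] at h

/-- a configuration -/
def dc (P : Cmd) (r : ℕ) (q : CC P ⊕ Option Bool) (σ : ℕ → List Bool) : (decM P r).Config :=
  (q, σ)

open Classical in
theorem decM_run (P : Cmd) (r : ℕ) {x : List Bool} {s' : St} {t T : ℕ}
    (h : Ev A P (fun k => if k = 0 then x else []) s' t) (hT : t + 1 ≤ T) (w : ℕ → Bool) :
    (decM P r).Halted ((decM P r).run A T w ((decM P r).init x)) ∧
    (s' r ∈ A ↔ (decM P r).Accepts ((decM P r).run A T w ((decM P r).init x))) := by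
  have h1 : (decM P r).run A t w ((decM P r).init x) = dc P r (Sum.inr none) s' :=
    compile_correct (decM P r) A h Sum.inl (Sum.inr none) (fun a => rfl) w
  have h2 : (decM P r).run A (t + 1) w ((decM P r).init x) =
      dc P r (Sum.inr (some (decide (s' r ∈ A)))) s' := by
    rw [Machine.run_add, h1, Machine.run_one]
    simp only [Machine.step, decM, dc]
    rfl
  have hh : (decM P r).Halted ((decM P r).run A (t + 1) w ((decM P r).init x)) := by
    rw [h2]
    exact ⟨_, rfl⟩
  rw [run_mono _ _ _ hT hh]
  refine ⟨hh, ?_⟩
  rw [h2]
  unfold Machine.Accepts
  change _ ↔ (Act.halt (decide (s' r ∈ A)) : Act (CC P ⊕ Option Bool)) = Act.halt true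
  simp only [Act.halt.injEq, decide_eq_true_eq]

/-! ### program pieces -/

/-- moving the input to stack `1`, reversed, with its length in unary on stack `2` -/
def split : Cmd :=
  .loop 0 (.br 0 .skip (.seq (.pop 0) (.seq (.push 1 false) (.push 2 true)))
    (.seq (.pop 0) (.seq (.push 1 true) (.push 2 true))))

theorem split_ev (x : List Bool) : ∀ (l : List Bool) (n : ℕ) (s : St),
    s = (fun k => if k = 0 then x else if k = 1 then l else if k = 2 then un n else []) →
    EvB A split s (fun k => if k = 1 then x.reverse ++ l else
      if k = 2 then un (n + x.length) else []) (5 * x.length + 1) := by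
  induction x with
  | nil =>
      intro l n s hs
      have h : Ev A split s s 1 := Ev.loopn (by rw [hs]; rfl)
      refine ⟨1, by simp, ?_⟩
      have e : s = (fun k => if k = 1 then ([] : List Bool).reverse ++ l else
        if k = 2 then un (n + ([] : List Bool).length) else []) := by
        subst hs
        funext k
        simp only [List.reverse_nil, List.nil_append, List.length_nil, add_zero]
        split_ifs <;> first | rfl | contradiction | omega
      rw [← e]
      exact h
  | cons b x ih =>
      intro l n s hs
      have hstep : EvB A (.br 0 .skip (.seq (.pop 0) (.seq (.push 1 false) (.push 2 true)))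
          (.seq (.pop 0) (.seq (.push 1 true) (.push 2 true)))) s
          (fun k => if k = 0 then x else if k = 1 then b :: l else
            if k = 2 then un (n + 1) else []) 4 := by
        cases b with
        | true =>
            have p1 := EvB.pop (A := A) 0 s
            have p2 := EvB.push (A := A) 1 true (update s 0 (s 0).tail)
            have p3 := EvB.push (A := A) 2 true (update (update s 0 (s 0).tail) 1
              (true :: (update s 0 (s 0).tail) 1))
            have p4 := EvB.brt (A := A) (r := 0) (pn := .skip)
              (pf := .seq (.pop 0) (.seq (.push 1 false) (.push 2 true))) (s := s) (l := x)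
              (by rw [hs]; rfl) (p1.seq (p2.seq p3))
            have e : update (update (update s 0 (s 0).tail) 1
              (true :: (update s 0 (s 0).tail) 1)) 2 (true :: (update (update s 0 (s 0).tail) 1
              (true :: (update s 0 (s 0).tail) 1)) 2)
              = (fun k => if k = 0 then x else if k = 1 then true :: l else
                if k = 2 then un (n + 1) else []) := by
              subst hs
              funext k
              simp only [update_apply]
              split_ifs <;> first | rfl | contradiction | omega
            rw [e] at p4
            exact p4
        | false =>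
            have p1 := EvB.pop (A := A) 0 s
            have p2 := EvB.push (A := A) 1 false (update s 0 (s 0).tail)
            have p3 := EvB.push (A := A) 2 true (update (update s 0 (s 0).tail) 1
              (false :: (update s 0 (s 0).tail) 1))
            have p4 := EvB.brf (A := A) (r := 0) (pn := .skip)
              (pt := .seq (.pop 0) (.seq (.push 1 true) (.push 2 true))) (s := s) (l := x)
              (by rw [hs]; rfl) (p1.seq (p2.seq p3))
            have e : update (update (update s 0 (s 0).tail) 1
              (false :: (update s 0 (s 0).tail) 1)) 2 (true :: (update (update s 0 (s 0).tail) 1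
              (false :: (update s 0 (s 0).tail) 1)) 2)
              = (fun k => if k = 0 then x else if k = 1 then false :: l else
                if k = 2 then un (n + 1) else []) := by
              subst hs
              funext k
              simp only [update_apply]
              split_ifs <;> first | rfl | contradiction | omega
            rw [e] at p4
            exact p4
      obtain ⟨t, ht, h1⟩ := hstep
      obtain ⟨t', ht', h2⟩ := ih (b :: l) (n + 1) _ rfl
      refine ⟨t + t' + 1, ?_, ?_⟩
      · simp only [List.length_cons]; omega
      · have h3 := Ev.loopc (A := A) (r := 0) (by rw [hs]; simp) h1 h2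
        have e2 : (fun k => if k = 1 then x.reverse ++ b :: l else
          if k = 2 then un (n + 1 + x.length) else [])
          = (fun k => if k = 1 then (b :: x).reverse ++ l else
          if k = 2 then un (n + (b :: x).length) else []) := by
          funext k
          rw [List.reverse_cons, List.append_assoc, List.length_cons,
            show n + 1 + x.length = n + (x.length + 1) by omega]
          rfl
        rw [e2] at h3
        exact h3

/-- moving stack `a` to stack `b`, reversed -/
def back (a b : ℕ) : Cmd :=
  .loop a (.br a .skip (.seq (.pop a) (.push b false)) (.seq (.pop a) (.push b true)))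

theorem back_ev {a b : ℕ} (hab : a ≠ b) (y : List Bool) : ∀ (s : St), s a = y →
    EvB A (back a b) s (update (update s a []) b (y.reverse ++ s b)) (4 * y.length + 1) := by
  induction y with
  | nil =>
      intro s hs
      refine ⟨1, by simp, ?_⟩
      have e : update (update s a []) b (([] : List Bool).reverse ++ s b) = s := by
        funext k
        simp only [update_apply, List.reverse_nil, List.nil_append]
        split_ifs with h1 h2
        · rw [h1]
        · rw [h2, hs]
        · rfl
      rw [e]
      exact Ev.loopn hs
  | cons c y ih =>
      intro s hs
      have hstep : EvB A (.br a .skip (.seq (.pop a) (.push b false))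
          (.seq (.pop a) (.push b true))) s (update (update s a y) b (c :: s b)) 3 := by
        have p1 := EvB.pop (A := A) a s
        have e : update (update s a (s a).tail) b (c :: (update s a (s a).tail) b) =
            update (update s a y) b (c :: s b) := by
          rw [hs, List.tail_cons, update_of_ne hab.symm]
        cases c with
        | true =>
            have p2 := EvB.push (A := A) b true (update s a (s a).tail)
            have p3 := EvB.brt (A := A) (r := a) (pn := .skip)
              (pf := .seq (.pop a) (.push b false)) (s := s) (l := y) hs (p1.seq p2)
            rw [e] at p3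
            exact p3
        | false =>
            have p2 := EvB.push (A := A) b false (update s a (s a).tail)
            have p3 := EvB.brf (A := A) (r := a) (pn := .skip)
              (pt := .seq (.pop a) (.push b true)) (s := s) (l := y) hs (p1.seq p2)
            rw [e] at p3
            exact p3
      obtain ⟨t, ht, h1⟩ := hstep
      obtain ⟨t', ht', h2⟩ := ih (update (update s a y) b (c :: s b))
        (by rw [update_of_ne hab, update_self])
      refine ⟨t + t' + 1, ?_, ?_⟩
      · simp only [List.length_cons]; omega
      · have h3 := Ev.loopc (A := A) (r := a) (by rw [hs]; simp) h1 h2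
        have e2 : update (update (update (update s a y) b (c :: s b)) a []) b
            (y.reverse ++ (update (update s a y) b (c :: s b)) b) =
            update (update s a []) b ((c :: y).reverse ++ s b) := by
          funext k
          simp only [update_apply, List.reverse_cons, List.append_assoc, List.singleton_append]
          split_ifs <;> rfl
        rw [e2] at h3
        exact h3

/-- as many zeros on stack `b` as there are bits on stack `a` -/
def zeros (a b : ℕ) : Cmd := .loop a (.seq (.pop a) (.push b false))

theorem zeros_ev {a b : ℕ} (hab : a ≠ b) {s : St} {n : ℕ} (ha : s a = un n) :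
    EvB A (zeros a b) s (update (update s a []) b (List.replicate n false ++ s b))
      (3 * n + 1) := by
  have h := EvB.loop_count (A := A) (r := a) (p := .seq (.pop a) (.push b false)) 2 n
    (fun i => update (update s a (un (n - i))) b (List.replicate i false ++ s b)) ?_ ?_ ?_
  · have e0 : update (update s a (un (n - 0))) b (List.replicate 0 false ++ s b) = s := by
      funext x
      simp only [update_apply]
      split_ifs with h1 h2
      · subst h1; simp
      · subst h2; simp [ha]
      · rfl
    have e1 : update (update s a (un (n - n))) b (List.replicate n false ++ s b)
      = update (update s a []) b (List.replicate n false ++ s b) := by simp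
    simp only [e0, e1] at h
    exact h.mono (by omega)
  · intro i hi
    simp only [update_of_ne hab, update_self]
    exact un_ne (by omega)
  · simp [update_of_ne hab]
  · intro i hi
    set s0 : St := update (update s a (un (n - i))) b (List.replicate i false ++ s b) with hs0
    have h1 := EvB.pop (A := A) a s0
    have h2 := EvB.push (A := A) b false (update s0 a (s0 a).tail)
    have h3 := h1.seq h2
    have e : update (update s0 a (s0 a).tail) b (false :: (update s0 a (s0 a).tail) b)
      = update (update s a (un (n - (i + 1)))) b (List.replicate (i + 1) false ++ s b) := by
      funext x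
      by_cases hx : x = b
      · subst hx
        simp only [hs0, update_self, update_of_ne hab.symm]
        rfl
      · by_cases hx' : x = a
        · subst hx'
          simp only [hs0, update_of_ne hx, update_self, un_tail]
          rfl
        · simp only [hs0, update_of_ne hx, update_of_ne hx']
    rw [e] at h3
    exact h3

/-- pushing a fixed list -/
def pushL (r : ℕ) : List Bool → Cmd
  | [] => .skip
  | b :: l => .seq (pushL r l) (.push r b)

theorem pushL_ev (r : ℕ) : ∀ (l : List Bool) (s : St),
    EvB A (pushL r l) s (update s r (l ++ s r)) (l.length + 1)
  | [], s => by
      have h := EvB.skip (A := A) s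
      have e : update s r ([] ++ s r) = s := by simp
      rw [e]
      exact h
  | b :: l, s => by
      have h1 := pushL_ev r l s
      have h2 := EvB.push (A := A) r b (update s r (l ++ s r))
      have h3 := h1.seq h2
      rw [update_self, update_idem] at h3
      exact h3

theorem U.pow {k : ℕ} {f : (Fin k → ℕ) → ℕ} (hf : U A f) (n : ℕ) : U A (fun v => f v ^ n) := by
  induction n with
  | zero => exact (U.const 1).congr (fun v => by simp)
  | succ n ih => exact (ih.mul hf).congr (fun v => by rw [pow_succ])

theorem U_pad (s : Task) (m : ℕ) : U A (fun v : Fin 1 → ℕ => s.pad m (v 0)) := by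
  have hid : U A (fun v : Fin 1 → ℕ => v 0) := U.proj 0
  have hb : U A (fun v : Fin 1 → ℕ => s.b (v 0)) := hid.add ((U.pow hid s.d0).add (U.const s.d0))
  have ht : U A (fun v : Fin 1 → ℕ => s.t (v 0)) :=
    (hid.add ((U.pow hid s.d).add (U.const s.d))).add (hb.add ((U.pow hb s.e).add (U.const s.e)))
  exact ((U.const 500).mul (U.pow (ht.add (U.const 1)) 6)).add (U.const m)

/-- the coded language is in `P` -/
theorem code_InP (s : Task) (i m : ℕ) : InP A {x | codeStr s i m x ∈ A} := by
  classical
  have hU := U_pad (A := A) s m
  have hpad := hU.bound
  obtain ⟨Pr, T, hT, hPr⟩ := hU
  set cst : List Bool := true :: true :: (List.replicate i false ++ [true]) with hcst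
  set P : Cmd := .seq split (.seq (Pr (fun _ => 2) 3 5) (.seq (zeros 3 4) (.seq (.push 4 true)
    (.seq (back 1 4) (pushL 4 cst))))) with hP
  have hprog : ∀ x : List Bool, ∃ s' : St, s' 4 = codeStr s i m x ∧
      EvB A P (fun k => if k = 0 then x else []) s'
        ((5 * x.length + 1) + (T (fun _ => x.length) + ((3 * s.pad m x.length + 1) +
          (1 + ((4 * x.length + 1) + (cst.length + 1)))))) := by
    intro x
    have h1 := split_ev (A := A) x [] 0 (fun k => if k = 0 then x else []) (by
      funext k
      split_ifs <;> rfl)
    rw [List.append_nil, Nat.zero_add] at h1
    set s1 : St := fun k => if k = 1 then x.reverse else if k = 2 then un x.length else []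
      with hs1
    have h2 := (hPr (fun _ => x.length)).2 (fun _ => 2) 3 5 (fun _ => by omega) (by omega)
      (fun _ => by omega) s1 (fun i => by simp [hs1]) (by simp [hs1])
      (fun k hk => by rw [hs1]; simp only; rw [if_neg (by omega), if_neg (by omega)])
    set s2 : St := update s1 3 (un (s.pad m x.length)) with hs2
    have h3 := zeros_ev (A := A) (a := 3) (b := 4) (by omega) (s := s2)
      (n := s.pad m x.length) (by rw [hs2, update_self])
    have e24 : s2 4 = [] := by
      rw [hs2, update_of_ne (by omega), hs1]
      simp
    rw [e24, List.append_nil] at h3
    set s3 : St := update (update s2 3 []) 4 (List.replicate (s.pad m x.length) false) with hs3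
    have h4 := EvB.push (A := A) 4 true s3
    have e34 : s3 4 = List.replicate (s.pad m x.length) false := by rw [hs3, update_self]
    rw [e34] at h4
    set s4 : St := update s3 4 (true :: List.replicate (s.pad m x.length) false) with hs4
    have e41 : s4 1 = x.reverse := by
      rw [hs4, update_of_ne (by omega), hs3, update_of_ne (by omega), update_of_ne (by omega),
        hs2, update_of_ne (by omega), hs1]
      simp
    have e44 : s4 4 = true :: List.replicate (s.pad m x.length) false := by
      rw [hs4, update_self]
    have h5 := back_ev (A := A) (a := 1) (b := 4) (by omega) x.reverse s4 e41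
    rw [List.reverse_reverse, e44, List.length_reverse] at h5
    set s5 : St := update (update s4 1 []) 4
      (x ++ true :: List.replicate (s.pad m x.length) false) with hs5
    have h6 := pushL_ev (A := A) 4 cst s5
    have e54 : s5 4 = x ++ true :: List.replicate (s.pad m x.length) false := by
      rw [hs5, update_self]
    rw [e54] at h6
    refine ⟨_, ?_, h1.seq (h2.seq (h3.seq (h4.seq (h5.seq h6))))⟩
    rw [update_self]
    simp [hcst, codeStr]
  -- polynomial bound
  obtain ⟨D, hD⟩ : ∃ D, ∀ n, (((5 * n + 1) + (T (fun _ => n) + ((3 * s.pad m n + 1) +
      (1 + ((4 * n + 1) + (cst.length + 1)))))) + 1) ≤ n ^ D + D := by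
    have hid := PB.proj (0 : Fin 1)
    have hTn : PB (fun v : Fin 1 → ℕ => T (fun _ => v 0)) :=
      PB.comp (G := fun _ v => v 0) hT (fun _ => hid)
    have h : PB (fun v : Fin 1 → ℕ => (((5 * v 0 + 1) + (T (fun _ => v 0) +
        ((3 * s.pad m (v 0) + 1) + (1 + ((4 * v 0 + 1) + (cst.length + 1)))))) + 1)) :=
      (((((PB.const 5).mul hid).add (PB.const 1)).add (hTn.add
        ((((PB.const 3).mul hpad).add (PB.const 1)).add ((PB.const 1).add
        ((((PB.const 4).mul hid).add (PB.const 1)).add (PB.const (cst.length + 1))))))).add
        (PB.const 1))
    obtain ⟨c, hc⟩ := h
    obtain ⟨D, hD⟩ := pow_bound c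
    refine ⟨D, fun n => ?_⟩
    have := hc (fun _ => n)
    simp only [Fin.sum_univ_one] at this
    exact this.trans (hD n)
  refine ⟨decM P 4, D, decM_det P 4, fun x w => ?_⟩
  obtain ⟨s', hs', t, ht, hev⟩ := hprog x
  have h := decM_run P 4 hev (T := x.length ^ D + D) (by have := hD x.length; omega) w
  rw [hs'] at h
  exact h

end Pool.Agent.H552R2
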