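import Pool.Agent.H552R2.Base

/-!
Machines whose set of states is `Fin n`: there are countably many, and they suffice.
-/

namespace Pool.Agent.H552R2

open Function
open Pool.Agent.Helper556.OM

/-- an injection of the actions into a countable type -/
def actEnc {n : ℕ} : Act (Fin n) → (ℕ × Bool × Fin n) ⊕ (ℕ × Fin n) ⊕
    (ℕ × (Option Bool → Fin n)) ⊕ (ℕ × (Bool → Fin n)) ⊕ (Bool → Fin n) ⊕ Bool
  | .push k b q => Sum.inl (k, b, q)
  | .pop k q => Sum.inr (Sum.inl (k, q))
  | .read k q => Sum.inr (Sum.inr (Sum.inl (k, q)))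
  | .ask k q => Sum.inr (Sum.inr (Sum.inr (Sum.inl (k, q))))
  | .guess q => Sum.inr (Sum.inr (Sum.inr (Sum.inr (Sum.inl q))))
  | .halt b => Sum.inr (Sum.inr (Sum.inr (Sum.inr (Sum.inr b))))

theorem actEnc_inj {n : ℕ} : Injective (actEnc (n := n)) := by
  intro a b h
  cases a <;> cases b <;> simp_all [actEnc]

instance {n : ℕ} : Countable (Act (Fin n)) := actEnc_inj.countable

/-- machines with states `Fin n` -/
structure FM : Type where
  n : ℕ
  start : Fin n
  act : Fin n → Act (Fin n)

/-- the machine -/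
def FM.toM (F : FM) : Machine := ⟨Fin F.n, inferInstance, F.start, F.act⟩

instance : Countable FM := by
  have : Injective (fun F : FM => (⟨F.n, F.start, F.act⟩ :
      Σ n : ℕ, Fin n × (Fin n → Act (Fin n)))) := by
    intro F G h
    cases F; cases G
    simp only [Sigma.mk.injEq] at h
    obtain ⟨h1, h2⟩ := h
    subst h1
    simp only [heq_eq_eq, Prod.mk.injEq] at h2
    obtain ⟨rfl, rfl⟩ := h2
    rfl
  exact this.countable

instance : Inhabited FM := ⟨⟨1, 0, fun _ => .halt false⟩⟩

/-- relabelling of states -/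
def relabel (M : Machine) {n : ℕ} (e : M.Q ≃ Fin n) : FM where
  n := n
  start := e M.start
  act := fun i => (M.act (e.symm i)).map e

/-- the corresponding configuration -/
def emb (M : Machine) {n : ℕ} (e : M.Q ≃ Fin n) (c : M.Config) : (relabel M e).toM.Config :=
  (e c.1, c.2)

theorem relabel_act (M : Machine) {n : ℕ} (e : M.Q ≃ Fin n) (c : M.Config) :
    (relabel M e).toM.act (emb M e c).1 = (M.act c.1).map e := by
  change (M.act (e.symm (e c.1))).map e = _
  rw [Equiv.symm_apply_apply]

theorem relabel_step (M : Machine) {n : ℕ} (e : M.Q ≃ Fin n) (A : Set (List Bool)) (g : Bool)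
    (c : M.Config) :
    (relabel M e).toM.step A g (emb M e c) = emb M e (M.step A g c) := by
  classical
  have h := relabel_act M e c
  have h2 : (emb M e c).2 = c.2 := rfl
  unfold Machine.step
  rw [h, h2]
  cases hact : M.act c.1 <;> rfl

theorem relabel_run (M : Machine) {n : ℕ} (e : M.Q ≃ Fin n) (A : Set (List Bool)) :
    ∀ (t : ℕ) (w : ℕ → Bool) (c : M.Config),
    (relabel M e).toM.run A t w (emb M e c) = emb M e (M.run A t w c)
  | 0, _, _ => rfl
  | t + 1, w, c => by
      rw [Machine.run, relabel_step, relabel_run M e A t, Machine.run]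

theorem relabel_accepts (M : Machine) {n : ℕ} (e : M.Q ≃ Fin n) (c : M.Config) :
    (relabel M e).toM.Accepts (emb M e c) ↔ M.Accepts c := by
  unfold Machine.Accepts
  rw [relabel_act M e c]
  constructor
  · intro hb
    cases hact : M.act c.1 <;> rw [hact] at hb <;> simp only [Act.map] at hb <;>
      first | (cases hb; rfl) | cases hb
  · intro hb
    rw [hb]; rfl

theorem exists_FM (M : Machine) : ∃ F : FM, ∀ (d : ℕ) (A : Set (List Bool)) (x : List Bool)
    (w : ℕ → Bool), Acc F.toM d A x w ↔ Acc M d A x w := by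
  have := M.fin
  obtain ⟨n, ⟨e⟩⟩ := Finite.exists_equiv_fin M.Q
  refine ⟨relabel M e, fun d A x w => ?_⟩
  unfold Acc
  have h := relabel_run M e A (x.length ^ d + d) w (M.init x)
  have hi : (relabel M e).toM.init x = emb M e (M.init x) := rfl
  rw [hi, h, relabel_accepts]

end Pool.Agent.H552R2
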