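import Pool.Agent.H552R2.Task

/-!
Oracles with correct codes.
-/

namespace Pool.Agent.H552R2

open Function
open Pool.Agent.Helper556.OM

variable (tk : ℕ → Task)

/-- `z` is a code string for a pair in `R` -/
def IsCode (R : Set (ℕ × ℕ)) (z : List Bool) : Prop :=
  ∃ i m x, (i, m) ∈ R ∧ z = codeStr (tk i) i m x

/-- the codes are correct -/
def Coded (R : Set (ℕ × ℕ)) (A : Set (List Bool)) : Prop :=
  ∀ i m x, (i, m) ∈ R → (codeStr (tk i) i m x ∈ A ↔ (tk i).val A x)

/-- the value demanded for the string `z` -/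
def ValOf (R : Set (ℕ × ℕ)) (z : List Bool) (A : Set (List Bool)) : Prop :=
  ∃ i m x, (i, m) ∈ R ∧ z = codeStr (tk i) i m x ∧ (tk i).val A x

open Classical in
/-- correcting the codes of length less than `n` -/
noncomputable def fixB (R : Set (ℕ × ℕ)) (G : Set (List Bool)) : ℕ → Set (List Bool)
  | 0 => G
  | n + 1 => {z | if z.length = n ∧ IsCode tk R z then ValOf tk R z (fixB R G n)
      else z ∈ fixB R G n}

/-- correcting all codes -/
noncomputable def fix (R : Set (ℕ × ℕ)) (G : Set (List Bool)) : Set (List Bool) :=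
  {z | z ∈ fixB tk R G (z.length + 1)}

variable {tk}

theorem mem_fixB_succ (R : Set (ℕ × ℕ)) (G : Set (List Bool)) (n : ℕ) (z : List Bool)
    (h : z.length ≠ n) : z ∈ fixB tk R G (n + 1) ↔ z ∈ fixB tk R G n := by
  classical
  simp only [fixB, Set.mem_ofPred_eq]
  rw [if_neg (fun h' => h h'.1)]

theorem mem_fixB_ge (R : Set (ℕ × ℕ)) (G : Set (List Bool)) (z : List Bool) (n : ℕ)
    (h : z.length < n) : z ∈ fixB tk R G n ↔ z ∈ fix tk R G := by
  induction n with
  | zero => omega
  | succ n ih =>
      rcases Nat.lt_or_ge z.length n with h' | h'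
      · rw [mem_fixB_succ R G n z (by omega), ih h']
      · have : z.length = n := by omega
        subst this
        rfl

theorem mem_fixB_le (R : Set (ℕ × ℕ)) (G : Set (List Bool)) (z : List Bool) (n : ℕ)
    (h : n ≤ z.length) : z ∈ fixB tk R G n ↔ z ∈ G := by
  induction n with
  | zero => rfl
  | succ n ih => rw [mem_fixB_succ R G n z (by omega), ih (by omega)]

theorem mem_fix_of_not_code {R : Set (ℕ × ℕ)} (G : Set (List Bool)) {z : List Bool}
    (h : ¬ IsCode tk R z) : z ∈ fix tk R G ↔ z ∈ G := by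
  classical
  have h1 : z ∈ fix tk R G ↔ z ∈ fixB tk R G (z.length + 1) := Iff.rfl
  rw [h1]
  simp only [fixB, Set.mem_ofPred_eq]
  rw [if_neg (fun h' => h h'.2), mem_fixB_le R G z _ le_rfl]

theorem t_lt_code (s : Task) (i m : ℕ) (x : List Bool) :
    s.t x.length < (codeStr s i m x).length := by
  rw [codeStr_length]
  have := t_lt_pad s m x.length
  omega

theorem fix_coded (R : Set (ℕ × ℕ)) (G : Set (List Bool)) : Coded tk R (fix tk R G) := by
  classical
  intro i m x hR
  set z := codeStr (tk i) i m x with hz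
  have hc : IsCode tk R z := ⟨i, m, x, hR, rfl⟩
  have h1 : z ∈ fix tk R G ↔ z ∈ fixB tk R G (z.length + 1) := Iff.rfl
  rw [h1]
  simp only [fixB, Set.mem_ofPred_eq]
  rw [if_pos ⟨trivial, hc⟩]
  have hv : ∀ (j : ℕ) (y : List Bool), (tk j).t y.length < z.length →
      ((tk j).val (fixB tk R G z.length) y ↔ (tk j).val (fix tk R G) y) := fun j y hj =>
    val_congr _ _ (fun u hu => mem_fixB_ge R G u z.length (by omega))
  constructor
  · rintro ⟨i', m', x', hR', he, hval⟩
    rw [hz] at he
    obtain ⟨rfl, rfl⟩ := codeStr_inj he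
    exact (hv i x (by rw [hz]; exact t_lt_code _ _ _ _)).1 hval
  · intro hval
    exact ⟨i, m, x, hR, rfl, (hv i x (by rw [hz]; exact t_lt_code _ _ _ _)).2 hval⟩

/-- oracles with correct codes that agree on the other strings are equal -/
theorem coded_ext {R : Set (ℕ × ℕ)} {A A' : Set (List Bool)} (h : Coded tk R A)
    (h' : Coded tk R A') (n : ℕ)
    (hag : ∀ z : List Bool, z.length < n → ¬ IsCode tk R z → (z ∈ A ↔ z ∈ A')) :
    ∀ z : List Bool, z.length < n → (z ∈ A ↔ z ∈ A') := by
  have key : ∀ k, k ≤ n → ∀ z : List Bool, z.length < k → (z ∈ A ↔ z ∈ A') := by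
    intro k
    induction k with
    | zero => intro _ z hz; omega
    | succ k ih =>
        intro hk z hz
        by_cases hc : IsCode tk R z
        · obtain ⟨i, m, x, hR, rfl⟩ := hc
          rw [h i m x hR, h' i m x hR]
          refine val_congr _ _ (fun u hu => ih (by omega) u ?_)
          have := t_lt_code (tk i) i m x
          omega
        · exact hag z (by omega) hc
  exact key n le_rfl

end Pool.Agent.H552R2
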