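import Pool.Agent.H552R2.Bal

/-!
Conditions and the oracles allowed by them.
-/

namespace Pool.Agent.H552R2

open Function
open Pool.Agent.Helper556.OM

/-- a condition: the oracle is fixed below length `l`, and the codes in `R` are promised -/
structure Cond : Type where
  l : ℕ
  A0 : Set (List Bool)
  R : Set (ℕ × ℕ)

variable (tk : ℕ → Task)

/-- the oracles allowed by a condition -/
def Good (p : Cond) (A : Set (List Bool)) : Prop :=
  (∀ z : List Bool, z.length < p.l → (z ∈ A ↔ z ∈ p.A0)) ∧ Coded tk p.R A ∧ Bal A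

variable {tk}

theorem dp_not_code {R : Set (ℕ × ℕ)} {n : ℕ} (y : Fin n → Bool) : ¬ IsCode tk R (dp y) := by
  rintro ⟨i, m, x, -, h⟩
  simp [dp, codeStr] at h

theorem bal_fix {R : Set (ℕ × ℕ)} {G : Set (List Bool)} (hG : Bal G) : Bal (fix tk R G) := by
  intro n
  have : dset n (fix tk R G) = dset n G :=
    dset_congr (fun y => mem_fix_of_not_code G (dp_not_code y))
  rw [this]
  exact hG n

/-- correcting a modification of a good oracle above the fixed part -/
theorem good_fix {p : Cond} {A G : Set (List Bool)} (hA : Good tk p A) (hG : Bal G)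
    (h : ∀ z : List Bool, z.length < p.l → ¬ IsCode tk p.R z → (z ∈ G ↔ z ∈ A)) :
    Good tk p (fix tk p.R G) := by
  refine ⟨fun z hz => ?_, fix_coded _ _, bal_fix hG⟩
  rw [← hA.1 z hz]
  refine coded_ext (fix_coded p.R G) hA.2.1 p.l (fun u hu hc => ?_) z hz
  rw [mem_fix_of_not_code G hc]
  exact h u hu hc

theorem comp2 {p : Cond} {A A' : Set (List Bool)} (hA : Good tk p A) (hA' : Good tk p A')
    (V W : Finset (List Bool)) (hW : ∀ u ∈ W, ¬ IsCode tk p.R u) (K : ℕ)
    (hK : 3 * V.card + 9 * W.card + 3 ≤ K)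
    (hsm : ∀ (n : ℕ) (y : Fin n → Bool), 2 ^ n < K → (dp y ∈ A' ↔ dp y ∈ A)) :
    ∃ (A2 : Set (List Bool)) (B : Finset (List Bool)), Good tk p A2 ∧
      (∀ u ∈ W, (u ∈ A2 ↔ u ∈ A')) ∧
      (∀ z, ¬ IsCode tk p.R z → z ∉ B → (z ∈ A2 ↔ z ∈ A)) ∧ B.card ≤ 2 * W.card ∧
      (∀ z ∈ B, z ∈ V ∪ W → z ∈ W ∧ ¬ (z ∈ A' ↔ z ∈ A)) ∧
      (∀ z ∈ B, ∀ (n : ℕ) (y : Fin n → Bool), z = dp y → K ≤ 2 ^ n) := by
  classical
  obtain ⟨G, B, hG, hGU, hGB, hBc, hB1, hB2⟩ := comp1 A A' hA.2.2 V W K hK
    (fun n y h _ => hsm n y h) W (Finset.Subset.refl _)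
  have hlow : ∀ u : List Bool, u.length < p.l → (u ∈ A' ↔ u ∈ A) := fun u hu => by
    rw [hA.1 u hu, hA'.1 u hu]
  refine ⟨fix tk p.R G, B, ?_, ?_, ?_, hBc, hB1, ?_⟩
  · refine good_fix hA hG (fun z hz hc => ?_)
    refine hGB z (fun hzB => ?_)
    by_cases hzW : z ∈ W
    · exact (hB1 z hzB (Finset.mem_union_right _ hzW)).2 (hlow z hz)
    · obtain ⟨n, y, -, -, u, -, hul, hu⟩ := hB2 z hzB hzW
      exact hu (hlow u (by omega))
  · intro u hu
    rw [mem_fix_of_not_code G (hW u hu)]
    exact hGU u hu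
  · intro z hc hz
    rw [mem_fix_of_not_code G hc]
    exact hGB z hz
  · intro z hz n y hy
    by_contra hcon
    by_cases hzW : z ∈ W
    · refine (hB1 z hz (Finset.mem_union_right _ hzW)).2 ?_
      rw [hy]
      exact hsm n y (by omega)
    · obtain ⟨n', y', hy', hK', -⟩ := hB2 z hz hzW
      have h1 := congrArg List.length (hy.symm.trans hy')
      simp only [dp_length] at h1
      have : n = n' := by omega
      subst this
      exact hcon hK'

/-- agreement on a set of strings -/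
def Ag (S : Finset (List Bool)) (A A' : Set (List Bool)) : Prop := ∀ z ∈ S, (z ∈ A ↔ z ∈ A')

theorem Ag.symm {S : Finset (List Bool)} {A A' : Set (List Bool)} (h : Ag S A A') :
    Ag S A' A := fun z hz => (h z hz).symm

theorem Ag.mono {S S' : Finset (List Bool)} {A A' : Set (List Bool)} (h : Ag S A A')
    (hS : S' ⊆ S) : Ag S' A A' := fun z hz => h z (hS hz)

variable (tk) in
/-- the property `f` of the good oracle `A` is certified by at most `b` bits -/
def Cert (p : Cond) (f : Set (List Bool) → Prop) (b : ℕ) (A : Set (List Bool)) : Prop :=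
  ∃ S : Finset (List Bool), (∀ z ∈ S, ¬ IsCode tk p.R z) ∧ S.card ≤ b ∧
    ∀ A', Good tk p A' → Ag S A A' → (f A' ↔ f A)

theorem Cert.mono {p : Cond} {f : Set (List Bool) → Prop} {b b' : ℕ} {A : Set (List Bool)}
    (h : Cert tk p f b A) (hb : b ≤ b') : Cert tk p f b' A := by
  obtain ⟨S, h1, h2, h3⟩ := h
  exact ⟨S, h1, h2.trans hb, h3⟩

/-- certificates for all strings of a list -/
theorem cert_list {p : Cond} {A : Set (List Bool)} (b : ℕ) : ∀ (l : List (List Bool)),
    (∀ z ∈ l, Cert tk p (fun A' => z ∈ A') b A) →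
    ∃ S : Finset (List Bool), (∀ z ∈ S, ¬ IsCode tk p.R z) ∧ S.card ≤ l.length * b ∧
      ∀ A', Good tk p A' → Ag S A A' → ∀ z ∈ l, (z ∈ A ↔ z ∈ A')
  | [], _ => ⟨∅, by simp, by simp, by simp⟩
  | u :: l, h => by
      classical
      obtain ⟨S, h1, h2, h3⟩ := cert_list b l (fun z hz => h z (List.mem_cons_of_mem _ hz))
      obtain ⟨S', h1', h2', h3'⟩ := h u List.mem_cons_self
      refine ⟨S ∪ S', ?_, ?_, ?_⟩
      · intro z hz
        rcases Finset.mem_union.1 hz with hz | hz
        · exact h1 z hz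
        · exact h1' z hz
      · have := Finset.card_union_le S S'
        rw [List.length_cons, Nat.succ_mul]
        omega
      · intro A' hA' hag z hz
        rcases List.mem_cons.1 hz with rfl | hz
        · exact (h3' A' hA' (hag.mono Finset.subset_union_right)).symm
        · exact h3 A' hA' (hag.mono Finset.subset_union_left) z hz

variable (tk) in
/-- all strings of length at most `k` have certificates of size at most `length + 1` -/
def CertUp (p : Cond) (k : ℕ) : Prop :=
  ∀ z : List Bool, z.length ≤ k → ∀ A, Good tk p A →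
    Cert tk p (fun A' => z ∈ A') (z.length + 1) A

/-- certificates for computations -/
theorem cert_Acc {p : Cond} {k : ℕ} (hk : CertUp tk p k) (M : Machine) (d : ℕ)
    (x : List Bool) (hx : x.length + (x.length ^ d + d) ≤ k) (w : ℕ → Bool)
    {A : Set (List Bool)} (hA : Good tk p A) :
    Cert tk p (fun A' => Acc M d A' x w) (k * (k + 1)) A := by
  obtain ⟨S, h1, h2, h3⟩ := cert_list (tk := tk) (p := p) (A := A) (k + 1) (Qs M d A x w)
    (fun z hz => (hk z ((Qs_len M d A x w z hz).trans hx) A hA).mono (by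
      have := Qs_len M d A x w z hz
      omega))
  refine ⟨S, h1, h2.trans (Nat.mul_le_mul_right _ ?_), fun A' hA' hag => ?_⟩
  · have := Qs_length_le M d A x w
    omega
  · exact (Acc_congr M d x w (h3 A' hA' hag)).symm

/-- positive nondeterministic answers are certified -/
theorem cert_AccN {p : Cond} {k : ℕ} (hk : CertUp tk p k) (N : Machine) (e : ℕ)
    (q : List Bool) (hq : q.length + (q.length ^ e + e) ≤ k)
    {A : Set (List Bool)} (hA : Good tk p A) (h : AccN N e A q) :
    Cert tk p (fun A' => AccN N e A' q) (k * (k + 1)) A := by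
  obtain ⟨w, hw⟩ := h
  obtain ⟨S, h1, h2, h3⟩ := cert_Acc hk N e q hq w hA
  refine ⟨S, h1, h2, fun A' hA' hag => ?_⟩
  exact ⟨fun _ => ⟨w, hw⟩, fun _ => ⟨w, (h3 A' hA' hag).2 hw⟩⟩

end Pool.Agent.H552R2
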