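import Pool.Agent.H552R2.Limit

/-!
A machine guessing a string and asking it.
-/

namespace Pool.Agent.H552R2

open Function
open Pool.Agent.Helper556.OM

/-- the states of the guessing machine -/
inductive GQ : Type
  | R | G | P (b : Bool) | O | F1 | F2 | K | H (b : Bool)

/-- an injection into a finite type -/
def GQ.enc : GQ → Fin 6 ⊕ Bool ⊕ Bool
  | .R => Sum.inl 0
  | .G => Sum.inl 1
  | .O => Sum.inl 2
  | .F1 => Sum.inl 3
  | .F2 => Sum.inl 4
  | .K => Sum.inl 5
  | .P b => Sum.inr (Sum.inl b)
  | .H b => Sum.inr (Sum.inr b)

theorem GQ.enc_inj : Injective GQ.enc := by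
  intro a b h
  cases a <;> cases b <;> simp_all [GQ.enc]

/-- the branching of the reading state -/
def gR : Option Bool → GQ
  | none => .F1
  | some _ => .G

/-- the actions -/
def gact (extra : Bool) : GQ → Act GQ
  | .R => .read 0 gR
  | .G => .guess (fun b => .P b)
  | .P b => .push 1 b .O
  | .O => .pop 0 .R
  | .F1 => .push 1 false .F2
  | .F2 => if extra = true then .push 1 true .K else .read 0 (fun _ => .K)
  | .K => .ask 1 (fun b => .H b)
  | .H b => .halt b

/-- the guessing machine: for an input of length `n`, guess `n` bits, and ask whether the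
string of the bits, prefixed by `false` or by `true false`, belongs to the oracle -/
def GM (extra : Bool) : Machine where
  Q := GQ
  fin := Finite.of_injective _ GQ.enc_inj
  start := .R
  act := gact extra

/-- the prefix -/
def pre (extra : Bool) : List Bool := if extra = true then [true, false] else [false]

/-- a configuration -/
def gc (extra : Bool) (q : GQ) (σ : ℕ → List Bool) : (GM extra).Config := (q, σ)

theorem GM_R_nil (extra : Bool) (A : Set (List Bool)) (g : Bool) (σ : ℕ → List Bool)
    (h : σ 0 = []) : (GM extra).step A g (gc extra .R σ) = gc extra .F1 σ := by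
  simp only [Machine.step, GM, gact, gc, h, List.head?_nil, gR]

theorem GM_R_cons (extra : Bool) (A : Set (List Bool)) (g : Bool) (σ : ℕ → List Bool)
    {b : Bool} {x : List Bool} (h : σ 0 = b :: x) :
    (GM extra).step A g (gc extra .R σ) = gc extra .G σ := by
  simp only [Machine.step, GM, gact, gc, h, List.head?_cons, gR]

theorem GM_G (extra : Bool) (A : Set (List Bool)) (g : Bool) (σ : ℕ → List Bool) :
    (GM extra).step A g (gc extra .G σ) = gc extra (.P g) σ := by
  simp only [Machine.step, GM, gact, gc]

theorem GM_P (extra : Bool) (A : Set (List Bool)) (g : Bool) (σ : ℕ → List Bool) (b : Bool) :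
    (GM extra).step A g (gc extra (.P b) σ) = gc extra .O (update σ 1 (b :: σ 1)) := by
  simp only [Machine.step, GM, gact, gc]

theorem GM_O (extra : Bool) (A : Set (List Bool)) (g : Bool) (σ : ℕ → List Bool) :
    (GM extra).step A g (gc extra .O σ) = gc extra .R (update σ 0 (σ 0).tail) := by
  simp only [Machine.step, GM, gact, gc]

theorem GM_F1 (extra : Bool) (A : Set (List Bool)) (g : Bool) (σ : ℕ → List Bool) :
    (GM extra).step A g (gc extra .F1 σ) = gc extra .F2 (update σ 1 (false :: σ 1)) := by
  simp only [Machine.step, GM, gact, gc]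

theorem GM_F2 (extra : Bool) (A : Set (List Bool)) (g : Bool) (σ : ℕ → List Bool) :
    (GM extra).step A g (gc extra .F2 (update σ 1 (false :: σ 1))) =
      gc extra .K (update σ 1 (pre extra ++ σ 1)) := by
  cases extra <;> simp [Machine.step, GM, gact, gc, pre]

open Classical in
theorem GM_K (extra : Bool) (A : Set (List Bool)) (g : Bool) (σ : ℕ → List Bool) :
    (GM extra).step A g (gc extra .K σ) = gc extra (.H (decide (σ 1 ∈ A))) σ := by
  simp only [Machine.step, GM, gact, gc]
  rfl

open Classical in
theorem GM_run (extra : Bool) (A : Set (List Bool)) : ∀ (x : List Bool) (σ : ℕ → List Bool)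
    (w : ℕ → Bool), σ 0 = x → ∃ σ' : ℕ → List Bool,
    (GM extra).run A (4 * x.length + 4) w (gc extra .R σ) = gc extra (.H (decide
      (pre extra ++ (List.ofFn (fun j : Fin x.length => w (4 * (x.length - 1 - j) + 1)) ++ σ 1)
        ∈ A))) σ' := by
  intro x
  induction x with
  | nil =>
      intro σ w h0
      refine ⟨update σ 1 (pre extra ++ σ 1), ?_⟩
      have hrun : (GM extra).run A (4 * ([] : List Bool).length + 4) w (gc extra .R σ) =
          (GM extra).step A (w 3) ((GM extra).step A (w 2) ((GM extra).step A (w 1)
            ((GM extra).step A (w 0) (gc extra .R σ)))) := rfl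
      rw [hrun, GM_R_nil _ _ _ _ h0, GM_F1, GM_F2, GM_K, update_self]
      simp
  | cons b x ih =>
      intro σ w h0
      have e : 4 * (b :: x).length + 4 = (4 * x.length + 4) + 1 + 1 + 1 + 1 := by
        simp only [List.length_cons]
        omega
      obtain ⟨σ', h⟩ := ih (update (update σ 1 (w 1 :: σ 1)) 0
        ((update σ 1 (w 1 :: σ 1)) 0).tail) (fun i => w (i + 1 + 1 + 1 + 1)) (by
          rw [update_self, update_of_ne (by omega), h0, List.tail_cons])
      refine ⟨σ', ?_⟩
      rw [e, Machine.run, GM_R_cons _ _ _ _ h0, Machine.run, GM_G, Machine.run, GM_P,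
        Machine.run, GM_O]
      simp only [Nat.zero_add]
      rw [h]
      have e2 : (update (update σ 1 (w 1 :: σ 1)) 0
        ((update σ 1 (w 1 :: σ 1)) 0).tail) 1 = w 1 :: σ 1 := by
        rw [update_of_ne (by omega), update_self]
      rw [e2]
      have e3 : List.ofFn (fun j : Fin x.length => w (4 * (x.length - 1 - j) + 1 + 1 + 1 + 1 + 1))
          ++ (w 1 :: σ 1) = List.ofFn (fun j : Fin (b :: x).length =>
            w (4 * ((b :: x).length - 1 - j) + 1)) ++ σ 1 := by
        have h5 : List.ofFn (fun j : Fin (b :: x).length =>
            w (4 * ((b :: x).length - 1 - j) + 1)) =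
            List.ofFn (fun j : Fin (x.length + 1) => w (4 * (x.length - j) + 1)) := rfl
        rw [h5, List.ofFn_succ', List.concat_eq_append, List.append_assoc]
        congr 1
        · congr 1
          funext j
          congr 1
          have := j.2
          simp only [Fin.val_castSucc]
          omega
        · simp
      rw [e3]

end Pool.Agent.H552R2
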