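import Pool.Agent.H552R2.Stage

/-!
The last kind of requirement, and the limit of a sequence of conditions.
-/

namespace Pool.Agent.H552R2

open Function
open Pool.Agent.Helper556.OM

variable {tk : ℕ → Task}

/-- the position of `y` in the existential region -/
def ep {n : ℕ} (y : Fin n → Bool) : List Bool := true :: false :: List.ofFn y

theorem ep_inj {n : ℕ} : Injective (ep (n := n)) := by
  intro y y' h
  unfold ep at h
  simp only [List.cons.injEq, true_and] at h
  exact List.ofFn_injective h

@[simp] theorem ep_length {n : ℕ} (y : Fin n → Bool) : (ep y).length = n + 2 := by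
  simp [ep]

theorem ep_not_code {R : Set (ℕ × ℕ)} {n : ℕ} (y : Fin n → Bool) : ¬ IsCode tk R (ep y) := by
  rintro ⟨i, m, x, -, h⟩
  simp [ep, codeStr] at h

/-- the existential language -/
def L2 (A : Set (List Bool)) : Set (List Bool) :=
  {x | ∃ y : Fin x.length → Bool, ep y ∈ A}

open Classical in
/-- the requirement for the existential language -/
def ReqC (M : FM) (d : ℕ) (A : Set (List Bool)) : Prop :=
  ∃ x : List Bool, ¬ (2 * 2 ^ (x.length ^ d + d) ≤ 3 * (Finset.univ.filter
    (fun w : Fin (x.length ^ d + d) → Bool => (Acc M.toM d A x (ext w) ↔ x ∈ L2 A))).card)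

/-- changing a block of the existential region -/
def setE (A : Set (List Bool)) (n : ℕ) (Y : Set (Fin n → Bool)) : Set (List Bool) :=
  {z | (∃ y ∈ Y, z = ep y) ∨ ((¬ ∃ y : Fin n → Bool, z = ep y) ∧ z ∈ A)}

theorem mem_setE_in (A : Set (List Bool)) (n : ℕ) (Y : Set (Fin n → Bool)) (y : Fin n → Bool) :
    ep y ∈ setE A n Y ↔ y ∈ Y := by
  unfold setE
  rw [Set.mem_ofPred_eq]
  constructor
  · rintro (⟨y', hy', h⟩ | ⟨h, -⟩)
    · rw [ep_inj h]; exact hy'
    · exact absurd ⟨y, rfl⟩ h
  · intro h
    exact Or.inl ⟨y, h, rfl⟩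

theorem mem_setE_out (A : Set (List Bool)) (n : ℕ) (Y : Set (Fin n → Bool)) {z : List Bool}
    (hz : ∀ y : Fin n → Bool, z ≠ ep y) : z ∈ setE A n Y ↔ z ∈ A := by
  unfold setE
  rw [Set.mem_ofPred_eq]
  constructor
  · rintro (⟨y', hy', h⟩ | ⟨-, h⟩)
    · exact absurd h (hz y')
    · exact h
  · intro h
    refine Or.inr ⟨?_, h⟩
    rintro ⟨y, hy⟩
    exact hz y hy

theorem setE_good {p : Cond} {A : Set (List Bool)} (hA : Good tk p A) {n : ℕ} (hn : p.l ≤ n)
    (Y : Set (Fin n → Bool)) : Good tk p (fix tk p.R (setE A n Y)) := by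
  refine good_fix hA ?_ ?_
  · intro k
    have : dset k (setE A n Y) = dset k A := by
      refine dset_congr (fun y => mem_setE_out _ _ _ (fun y' h => ?_))
      simp [dp, ep] at h
    rw [this]
    exact hA.2.2 k
  · intro z hz _
    refine mem_setE_out _ _ _ (fun y h => ?_)
    rw [h, ep_length] at hz
    omega

theorem L2_setE {R : Set (ℕ × ℕ)} {A : Set (List Bool)} {x : List Bool}
    (Y : Set (Fin x.length → Bool)) : x ∈ L2 (fix tk R (setE A x.length Y)) ↔ Y.Nonempty := by
  unfold L2
  rw [Set.mem_ofPred_eq]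
  constructor
  · rintro ⟨y, hy⟩
    rw [mem_fix_of_not_code _ (ep_not_code y), mem_setE_in] at hy
    exact ⟨y, hy⟩
  · rintro ⟨y, hy⟩
    refine ⟨y, ?_⟩
    rw [mem_fix_of_not_code _ (ep_not_code y), mem_setE_in]
    exact hy

theorem stageC {p : Cond} (hp : Valid tk p) (M : FM) (d : ℕ) :
    ∃ q, Valid tk q ∧ Ext p q ∧ ∀ A, Good tk q A → ReqC M d A := by
  classical
  set k : ℕ → ℕ := fun n => n + (n ^ d + d) with hk
  have hPB : PB (fun v : Fin 1 → ℕ => 3 * (k (v 0) * (k (v 0) + 1))) := by
    have hid := PB.proj (0 : Fin 1)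
    have h1 : PB (fun v : Fin 1 → ℕ => v 0 ^ d + d) := (hid.pow d).add (PB.const d)
    have h3 : PB (fun v : Fin 1 → ℕ => k (v 0)) := hid.add h1
    exact (PB.const 3).mul (h3.mul (h3.add (PB.const 1)))
  obtain ⟨n, hn, hlt⟩ := PB.exists_lt hPB p.l
  simp only at hlt
  obtain ⟨x, hxl⟩ : ∃ x : List Bool, x.length = n := ⟨List.replicate n false, by simp⟩
  subst hxl
  have hloc : ∀ A A' : Set (List Bool), (∀ z : List Bool, z.length < k x.length +
      (x.length + 3) → (z ∈ A ↔ z ∈ A')) →
      ¬ (2 * 2 ^ (x.length ^ d + d) ≤ 3 * (Finset.univ.filter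
        (fun w : Fin (x.length ^ d + d) → Bool => (Acc M.toM d A x (ext w) ↔ x ∈ L2 A))).card) →
      ¬ (2 * 2 ^ (x.length ^ d + d) ≤ 3 * (Finset.univ.filter
        (fun w : Fin (x.length ^ d + d) → Bool =>
          (Acc M.toM d A' x (ext w) ↔ x ∈ L2 A'))).card) := by
    intro A A' h hbad
    have h1 : x ∈ L2 A ↔ x ∈ L2 A' := by
      unfold L2
      rw [Set.mem_ofPred_eq, Set.mem_ofPred_eq]
      refine exists_congr (fun y => h _ ?_)
      rw [ep_length]
      omega
    have h2 : ∀ w : ℕ → Bool, Acc M.toM d A x w ↔ Acc M.toM d A' x w := fun w =>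
      Acc_congr _ _ _ _ (fun z hz => h z (by
        have := Qs_len _ _ _ _ _ _ hz
        simp only [hk]
        omega))
    simp only [h1, h2] at hbad
    exact hbad
  have hex : ∃ A, Good tk p A ∧ ¬ (2 * 2 ^ (x.length ^ d + d) ≤ 3 * (Finset.univ.filter
        (fun w : Fin (x.length ^ d + d) → Bool =>
          (Acc M.toM d A x (ext w) ↔ x ∈ L2 A))).card) := by
    by_contra hcon
    push Not at hcon
    have hcert := certUp_of_robust hp.2 (k x.length)
    have hcard : Fintype.card (Fin x.length → Bool) = 2 ^ x.length := by simp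
    let eq : Fin (2 ^ x.length) ≃ (Fin x.length → Bool) :=
      (finCongr hcard.symm).trans (Fintype.equivFin (Fin x.length → Bool)).symm
    have := sens_bound (tk := tk) (p := p) (f := fun A => x ∈ L2 A)
      (acc := fun A w => Acc M.toM d A x (ext w)) (c := k x.length * (k x.length + 1))
      (fun A hA w => cert_Acc hcert M.toM d x le_rfl (ext w) hA)
      (fun A hA => hcon A hA) (setE_good hp.1 hn ∅) (r := 2 ^ x.length)
      (fun i => {ep (eq i)}) (fun i => fix tk p.R (setE p.A0 x.length {eq i}))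
      (fun i j hij => by
        rw [Finset.disjoint_singleton_left, Finset.mem_singleton]
        exact fun h => hij (eq.injective (ep_inj h)))
      (fun i => setE_good hp.1 hn _)
      (fun i z hz hzi => by
        rw [Finset.mem_singleton] at hzi
        rw [mem_fix_of_not_code _ hz, mem_fix_of_not_code _ hz]
        by_cases hzE : ∃ y : Fin x.length → Bool, z = ep y
        · obtain ⟨y, rfl⟩ := hzE
          rw [mem_setE_in, mem_setE_in]
          simp only [Set.mem_singleton_iff, Set.mem_empty_iff_false, iff_false]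
          exact fun h => hzi (by rw [h])
        · push Not at hzE
          rw [mem_setE_out _ _ _ hzE, mem_setE_out _ _ _ hzE])
      (fun i => by
        simp only [L2_setE]
        simp)
    omega
  obtain ⟨q, h1, h2, h3⟩ := stage_local hp _ (k x.length + (x.length + 3)) hloc hex
  exact ⟨q, h1, h2, fun A hA => ⟨x, h3 A hA⟩⟩

/-! ### the limit -/

theorem limit (Req : ℕ → Set (List Bool) → Prop)
    (hReq : ∀ n p, Valid tk p → ∃ q, Valid tk q ∧ Ext p q ∧ ∀ A, Good tk q A → Req n A) :
    ∃ A, Bal A ∧ ∀ n, Req n A := by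
  classical
  -- the starting condition
  set p0 : Cond := ⟨0, ∅, ∅⟩ with hp0
  have hv0 : Valid tk p0 := by
    refine ⟨⟨fun z _ => Iff.rfl, fun i m x h => absurd h (Set.notMem_empty _), fun n => ?_⟩,
      fun A _ i m h => absurd h (Set.notMem_empty _)⟩
    left
    have : dset n (∅ : Set (List Bool)) = ∅ := by
      ext y
      rw [mem_dset]
      simp
    rw [this]
    simp
  -- one step
  have hstep : ∀ n (p : {p : Cond // Valid tk p}), ∃ q : {p : Cond // Valid tk p},
      Ext p.1 q.1 ∧ p.1.l < q.1.l ∧ ∀ A, Good tk q.1 A → Req n A := by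
    intro n p
    obtain ⟨q, hq, hpq, hr⟩ := hReq n p.1 p.2
    refine ⟨⟨freeze q q.A0 (q.l + 1), freeze_valid hq hq.1 _⟩,
      hpq.trans (freeze_ext hq.1 _), ?_, fun A hA => hr A (hA.of_ext (freeze_ext hq.1 _))⟩
    have h1 := hpq.1
    have h2 : q.l + 1 ≤ (freeze q q.A0 (q.l + 1)).l := le_max_right _ _
    simp only
    omega
  choose nxt hn1 hn2 hn3 using hstep
  set P : ℕ → {p : Cond // Valid tk p} := fun n =>
    Nat.rec ⟨p0, hv0⟩ (fun n p => nxt n p) n with hP
  have hPs : ∀ n, P (n + 1) = nxt n (P n) := fun n => rfl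
  have hext : ∀ n m, n ≤ m → Ext (P n).1 (P m).1 := by
    intro n m hnm
    induction m, hnm using Nat.le_induction with
    | base => exact Ext.refl _
    | succ m _ ih => exact ih.trans (by rw [hPs]; exact hn1 m (P m))
  have hl : ∀ n, n ≤ (P n).1.l := by
    intro n
    induction n with
    | zero => exact Nat.zero_le _
    | succ n ih =>
        have := hn2 n (P n)
        rw [hPs]
        omega
  set A : Set (List Bool) := {z | z ∈ (P (z.length + 1)).1.A0} with hA
  have hmem : ∀ n z, z.length < (P n).1.l → (z ∈ A ↔ z ∈ (P n).1.A0) := by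
    intro n z hz
    have h0 : z ∈ A ↔ z ∈ (P (z.length + 1)).1.A0 := Iff.rfl
    rw [h0]
    have hzl : z.length < (P (z.length + 1)).1.l := by
      have := hl (z.length + 1)
      omega
    rcases Nat.le_total n (z.length + 1) with h | h
    · exact (hext _ _ h).2.1 z hz
    · exact ((hext _ _ h).2.1 z hzl).symm
  have hgood : ∀ n, Good tk (P n).1 A := by
    intro n
    refine ⟨hmem n, ?_, ?_⟩
    · intro i m x hR
      set N := max n ((codeStr (tk i) i m x).length + (tk i).t x.length + 1) with hN
      have hlN := hl N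
      have h1 : codeStr (tk i) i m x ∈ A ↔ codeStr (tk i) i m x ∈ (P N).1.A0 :=
        hmem N _ (by omega)
      have h2 : (tk i).val A x ↔ (tk i).val (P N).1.A0 x :=
        val_congr _ _ (fun z hz => hmem N z (by omega))
      rw [h1, h2]
      exact (P N).2.1.2.1 i m x ((hext n N (le_max_left _ _)).2.2 hR)
    · intro k
      set N := k + 2 with hN
      have hlN := hl N
      have : dset k A = dset k (P N).1.A0 :=
        dset_congr (fun y => hmem N _ (by rw [dp_length]; omega))
      rw [this]
      exact (P N).2.1.2.2 k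
  refine ⟨A, (hgood 0).2.2, fun n => ?_⟩
  have := hn3 n (P n) A
  rw [← hPs] at this
  exact this (hgood (n + 1))

end Pool.Agent.H552R2
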