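import Pool.Agent.H552R2.Code

/-!
The oracle and its properties.
-/

namespace Pool.Agent.H552R2

open Function
open Pool.Agent.Helper556.OM

/-! ### the oracle -/

/-- an oracle meeting all requirements -/
theorem exists_oracle : ∃ A : Set (List Bool), Bal A ∧
    (∀ s : Task, (∃ i m, ∀ x, (codeStr s i m x ∈ A ↔ s.val A x)) ∨ ∃ x, ¬ s.ok A x) ∧
    (∀ (M0 : FM) (d0 : ℕ) (N : FM) (e : ℕ), ReqB M0 d0 N e A) ∧
    (∀ (M : FM) (d : ℕ), ReqC M d A) := by
  obtain ⟨tk, htk⟩ := exists_surjective_nat Task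
  obtain ⟨g, hg⟩ := exists_surjective_nat (ℕ ⊕ (FM × ℕ × FM × ℕ) ⊕ (FM × ℕ))
  obtain ⟨A, hA, hreq⟩ := limit (tk := tk) (fun n A =>
    match g n with
    | Sum.inl i => ReqA tk i A
    | Sum.inr (Sum.inl (M0, d0, N, e)) => ReqB M0 d0 N e A
    | Sum.inr (Sum.inr (M, d)) => ReqC M d A) (by
      intro n p hp
      rcases g n with i | ⟨M0, d0, N, e⟩ | ⟨M, d⟩
      · exact stageA hp i
      · exact stageB hp M0 d0 N e
      · exact stageC hp M d)
  refine ⟨A, hA, fun s => ?_, fun M0 d0 N e => ?_, fun M d => ?_⟩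
  · obtain ⟨i, rfl⟩ := htk s
    obtain ⟨n, hn⟩ := hg (Sum.inl i)
    have h := hreq n
    rw [hn] at h
    rcases h with ⟨m, h⟩ | h
    · exact Or.inl ⟨i, m, h⟩
    · exact Or.inr h
  · obtain ⟨n, hn⟩ := hg (Sum.inr (Sum.inl (M0, d0, N, e)))
    have h := hreq n
    rw [hn] at h
    exact h
  · obtain ⟨n, hn⟩ := hg (Sum.inr (Sum.inr (M, d)))
    have h := hreq n
    rw [hn] at h
    exact h

/-! ### simple closure properties -/

theorem InP.toNP {A L : Set (List Bool)} (h : InP A L) : InNP A L := by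
  obtain ⟨M, d, -, hM⟩ := h
  exact ⟨M, d, fun x => ⟨fun w => (hM x w).1, ⟨fun hx => ⟨fun _ => false, (hM x _).2.1 hx⟩,
    fun ⟨w, hw⟩ => (hM x w).2.2 hw⟩⟩⟩

theorem InP.toBPP {A L : Set (List Bool)} (h : InP A L) : InBPP A L := by
  classical
  obtain ⟨M, d, -, hM⟩ := h
  refine ⟨M, d, fun x => ⟨fun w => (hM x w).1, ?_⟩⟩
  have : (Finset.univ.filter (fun w : Fin (x.length ^ d + d) → Bool =>
      (M.Accepts (M.run A (x.length ^ d + d) (ext w) (M.init x)) ↔ x ∈ L))) = Finset.univ := by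
    rw [Finset.filter_eq_self]
    intro w _
    exact (hM x _).2.symm
  rw [this]
  simp only [Finset.card_univ, Fintype.card_pi, Fintype.card_bool, Finset.prod_const,
    Fintype.card_fin]
  omega

theorem InP.self (L : Set (List Bool)) : InP L L := by
  refine ⟨decM .skip 0, 2, decM_det _ _, fun x w => ?_⟩
  have h := decM_run (A := L) .skip 0 (x := x) (T := x.length ^ 2 + 2) (Ev.skip _) (by omega) w
  simpa using h

/-- swapping accepting and rejecting -/
def cact {Q : Type} : Act Q → Act Q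
  | .halt b => .halt (!b)
  | a => a

/-- the machine with the answers swapped -/
def cM (M : Machine) : Machine := ⟨M.Q, M.fin, M.start, fun q => cact (M.act q)⟩

/-- the configuration, seen as one of the machine with the answers swapped -/
def cc (M : Machine) (c : M.Config) : (cM M).Config := (c.1, c.2)

theorem cc_act (M : Machine) (c : M.Config) : (cM M).act (cc M c).1 = cact (M.act c.1) := rfl

theorem cc_step (M : Machine) (A : Set (List Bool)) (g : Bool) (c : M.Config) :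
    (cM M).step A g (cc M c) = cc M (M.step A g c) := by
  have h := cc_act M c
  have h' : (cc M c).2 = c.2 := rfl
  unfold Machine.step
  rw [h, h']
  cases hact : M.act c.1 <;> rfl

theorem cc_run (M : Machine) (A : Set (List Bool)) : ∀ (t : ℕ) (w : ℕ → Bool) (c : M.Config),
    (cM M).run A t w (cc M c) = cc M (M.run A t w c)
  | 0, _, _ => rfl
  | t + 1, w, c => by
      rw [Machine.run, cc_step, Machine.run, cc_run M A t _ (M.step A (w 0) c)]

theorem InP.compl {A L : Set (List Bool)} (h : InP A L) : InP A Lᶜ := by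
  obtain ⟨M, d, hdet, hM⟩ := h
  refine ⟨cM M, d, ?_, fun x w => ?_⟩
  · intro q f h
    have h1 : cact (M.act q) = .guess f := h
    have h2 := hdet q f
    cases hact : M.act q <;> rw [hact] at h1 h2 <;> simp_all [cact]
  · have hinit : (cM M).init x = cc M (M.init x) := rfl
    rw [hinit, cc_run]
    obtain ⟨⟨b, hb⟩, h2⟩ := hM x w
    set c := M.run A (x.length ^ d + d) w (M.init x) with hc
    have hact : (cM M).act (cc M c).1 = .halt (!b) := by
      rw [cc_act, hb]
      rfl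
    refine ⟨⟨!b, hact⟩, ?_⟩
    rw [Set.mem_compl_iff, h2]
    unfold Machine.Accepts
    rw [hb, hact]
    simp only [Act.halt.injEq]
    cases b <;> simp

/-! ### collapses -/

section Collapse

variable {A : Set (List Bool)}

theorem collapse_true
    (hA : ∀ s : Task, (∃ i m, ∀ x, (codeStr s i m x ∈ A ↔ s.val A x)) ∨ ∃ x, ¬ s.ok A x)
    {L : Set (List Bool)} (h1 : InNP A L) (h2 : InNP A Lᶜ) : InP A L := by
  obtain ⟨M, d, hM⟩ := h1
  obtain ⟨N, e, hN⟩ := h2
  obtain ⟨F, hF⟩ := exists_FM M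
  obtain ⟨G, hG⟩ := exists_FM N
  set s : Task := ⟨true, F, d, default, 0, G, e⟩ with hs
  have hL : ∀ x, AccN F.toM d A x ↔ x ∈ L := by
    intro x
    unfold AccN
    rw [(hM x).2]
    exact exists_congr (fun w => hF d A x w)
  have hLc : ∀ x, AccN G.toM e A x ↔ x ∉ L := by
    intro x
    have h := (hN x).2
    rw [Set.mem_compl_iff] at h
    rw [h]
    exact exists_congr (fun w => hG e A x w)
  have hval : ∀ x, s.val A x ↔ x ∈ L := by
    intro x
    unfold Task.val
    rw [if_pos rfl]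
    exact hL x
  rcases hA s with ⟨i, m, h⟩ | ⟨x, hx⟩
  · have : L = {x | codeStr s i m x ∈ A} := by
      ext x
      rw [Set.mem_ofPred_eq, h x, hval]
    rw [this]
    exact code_InP s i m
  · exfalso
    apply hx
    unfold Task.ok
    rw [if_pos rfl]
    change AccN F.toM d A x ↔ ¬ AccN G.toM e A x
    rw [hL, hLc, not_not]

theorem collapse_false
    (hA : ∀ s : Task, (∃ i m, ∀ x, (codeStr s i m x ∈ A ↔ s.val A x)) ∨ ∃ x, ¬ s.ok A x)
    {L B : Set (List Bool)} (h1 : InBPP A L) (h2 : InNP A B) (h3 : InP B L) : InP A L := by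
  classical
  obtain ⟨M, d, hM⟩ := h1
  obtain ⟨N, e, hN⟩ := h2
  obtain ⟨M0, d0, -, hM0⟩ := h3
  obtain ⟨F, hF⟩ := exists_FM M
  obtain ⟨G, hG⟩ := exists_FM N
  obtain ⟨F0, hF0⟩ := exists_FM M0
  set s : Task := ⟨false, F, d, F0, d0, G, e⟩ with hs
  have hB : BN G.toM e A = B := by
    ext q
    unfold BN
    rw [Set.mem_ofPred_eq, (hN q).2]
    exact exists_congr (fun w => hG e A q w)
  have hval' : ∀ x, Acc F0.toM d0 (BN G.toM e A) x w0 ↔ x ∈ L := by
    intro x
    rw [hB, hF0]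
    exact (hM0 x w0).2.symm
  have hval : ∀ x, s.val A x ↔ x ∈ L := by
    intro x
    unfold Task.val
    rw [if_neg (by simp [hs])]
    exact hval' x
  rcases hA s with ⟨i, m, h⟩ | ⟨x, hx⟩
  · have : L = {x | codeStr s i m x ∈ A} := by
      ext x
      rw [Set.mem_ofPred_eq, h x, hval]
    rw [this]
    exact code_InP s i m
  · exfalso
    apply hx
    unfold Task.ok
    rw [if_neg (by simp [hs])]
    change 2 * 2 ^ (x.length ^ d + d) ≤ 3 * (Finset.univ.filter
      (fun w : Fin (x.length ^ d + d) → Bool => (Acc F.toM d A x (ext w) ↔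
        Acc F0.toM d0 (BN G.toM e A) x w0))).card
    simp only [hval', hF]
    exact (hM x).2

end Collapse

theorem main : ∃ A : Set (List Bool),
    (∀ L, InP A L ↔ (InBPP A L ∧ ∃ B, InNP A B ∧ InP B L)) ∧
    (∀ L, InP A L ↔ (InNP A L ∧ InNP A Lᶜ)) ∧
    (∃ L, InBPP A L ∧ ∀ B, InNP A B → ¬ InP B L) ∧
    (∃ L, InNP A L ∧ ¬ InBPP A L) := by
  classical
  obtain ⟨A, hbal, hcode, hB, hC⟩ := exists_oracle
  refine ⟨A, fun L => ⟨fun h => ⟨h.toBPP, L, h.toNP, InP.self L⟩, ?_⟩,
    fun L => ⟨fun h => ⟨h.toNP, h.compl.toNP⟩, fun h => collapse_true hcode h.1 h.2⟩,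
    ⟨L1 A, L1_BPP hbal, ?_⟩, ⟨L2 A, L2_NP A, ?_⟩⟩
  · rintro ⟨h1, B, h2, h3⟩
    exact collapse_false hcode h1 h2 h3
  · rintro B ⟨N, e, hN⟩ ⟨M0, d0, -, hM0⟩
    obtain ⟨G, hG⟩ := exists_FM N
    obtain ⟨F0, hF0⟩ := exists_FM M0
    obtain ⟨x, hx⟩ := hB F0 d0 G e
    have hBB : BN G.toM e A = B := by
      ext q
      unfold BN
      rw [Set.mem_ofPred_eq, (hN q).2]
      exact exists_congr (fun w => hG e A q w)
    apply hx
    rw [hBB, hF0]
    exact (hM0 x w0).2
  · rintro ⟨M, d, hM⟩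
    obtain ⟨F, hF⟩ := exists_FM M
    obtain ⟨x, hx⟩ := hC F d
    apply hx
    have h := (hM x).2
    simp only [hF]
    exact h

end Pool.Agent.H552R2
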