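import Pool.Agent.H552R2.Sens

/-!
The sequence of answers in a computation with an NP oracle, ordered lexicographically.
-/

namespace Pool.Agent.H552R2

open Function
open Pool.Agent.Helper556.OM

variable {tk : ℕ → Task}

open Classical in
/-- the sequence of positive answers, as a number -/
noncomputable def pathN (M : Machine) (O : Set (List Bool)) :
    ℕ → (ℕ → Bool) → M.Config → ℕ
  | 0, _, _ => 0
  | t + 1, w, c => (if ∃ q ∈ asked M c, q ∈ O then 2 ^ t else 0) +
      pathN M O t (fun i => w (i + 1)) (M.step O (w 0) c)

theorem pathN_lt (M : Machine) (O : Set (List Bool)) : ∀ (t : ℕ) (w : ℕ → Bool)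
    (c : M.Config), pathN M O t w c < 2 ^ t
  | 0, _, _ => by simp [pathN]
  | t + 1, w, c => by
      rw [pathN]
      have := pathN_lt M O t (fun i => w (i + 1)) (M.step O (w 0) c)
      have h2 : 2 ^ (t + 1) = 2 ^ t + 2 ^ t := by ring
      split_ifs <;> omega

theorem asked_eq (M : Machine) (c : M.Config) {q z : List Bool} (hq : q ∈ asked M c)
    (hz : z ∈ asked M c) : z = q := by
  unfold asked at hq hz
  split at hq
  · rename_i k f hk
    rw [hk] at hz
    simp only [List.mem_singleton] at hq hz
    rw [hq, hz]
  · simp at hq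

theorem pathY {p : Cond} {k : ℕ} (hk : CertUp tk p k) (M N : Machine) (e : ℕ) :
    ∀ (t : ℕ) (w : ℕ → Bool) (c : M.Config) (L : ℕ), (∀ r, (c.2 r).length ≤ L) →
      (∀ q : List Bool, q.length ≤ L + t → q.length + (q.length ^ e + e) ≤ k) →
      ∀ A, Good tk p A → ∃ U : Finset (List Bool), (∀ z ∈ U, ¬ IsCode tk p.R z) ∧
        U.card ≤ t * (k * (k + 1)) ∧ ∀ A', Good tk p A' → Ag U A A' →
          pathN M (BN N e A) t w c ≤ pathN M (BN N e A') t w c ∧
          (pathN M (BN N e A') t w c = pathN M (BN N e A) t w c →
            M.run (BN N e A') t w c = M.run (BN N e A) t w c) ∧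
          (pathN M (BN N e A) t w c < pathN M (BN N e A') t w c →
            ∃ W : Finset (List Bool), (∀ z ∈ W, ¬ IsCode tk p.R z) ∧
              W.card ≤ k * (k + 1) ∧ ∀ A'', Good tk p A'' → Ag U A A'' → Ag W A' A'' →
                pathN M (BN N e A) t w c < pathN M (BN N e A'') t w c) := by
  classical
  intro t
  induction t with
  | zero =>
      intro w c L _ _ A _
      refine ⟨∅, by simp, by simp, fun A' _ _ => ⟨le_refl _, fun _ => rfl, fun h => ?_⟩⟩
      simp [pathN] at h
  | succ t ih =>
      intro w c L hL hq A hA
      have hcL : ∀ r, ((M.step (BN N e A) (w 0) c).2 r).length ≤ L + 1 := fun r => by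
        have h1 := Machine.step_length (A := BN N e A) M (w 0) c r
        have h2 := hL r
        omega
      obtain ⟨U2, hU2, hU2c, hU2s⟩ := ih (fun i => w (i + 1)) (M.step (BN N e A) (w 0) c)
        (L + 1) hcL (fun q hq' => hq q (by omega)) A hA
      have hqL : ∀ q ∈ asked M c, q.length ≤ L + (t + 1) := by
        intro q hqa
        unfold asked at hqa
        split at hqa
        · rename_i r f hr
          simp only [List.mem_singleton] at hqa
          subst hqa
          have := hL r
          omega
        · simp at hqa
      have hmul : (t + 1) * (k * (k + 1)) = t * (k * (k + 1)) + k * (k + 1) := by ring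
      by_cases hyes : ∃ q ∈ asked M c, q ∈ BN N e A
      · obtain ⟨q, hqa, hqA⟩ := hyes
        obtain ⟨U1, hU1, hU1c, hU1s⟩ := cert_AccN hk N e q (hq q (hqL q hqa)) hA hqA
        have hgood : ∀ A', Good tk p A' → Ag (U1 ∪ U2) A A' →
            q ∈ BN N e A' ∧ M.step (BN N e A') (w 0) c = M.step (BN N e A) (w 0) c := by
          intro A' hA' hag
          have h1 : q ∈ BN N e A' :=
            (hU1s A' hA' (hag.mono Finset.subset_union_left)).2 hqA
          refine ⟨h1, step_congr M _ _ (fun z hz => ?_)⟩
          rw [asked_eq M c hqa hz]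
          exact ⟨fun _ => hqA, fun _ => h1⟩
        have hp : ∀ A', Good tk p A' → Ag (U1 ∪ U2) A A' →
            pathN M (BN N e A') (t + 1) w c = 2 ^ t + pathN M (BN N e A') t
              (fun i => w (i + 1)) (M.step (BN N e A) (w 0) c) := by
          intro A' hA' hag
          obtain ⟨h1, h2⟩ := hgood A' hA' hag
          rw [pathN, if_pos ⟨q, hqa, h1⟩, h2]
        have hpA := hp A hA (fun z _ => Iff.rfl)
        refine ⟨U1 ∪ U2, ?_, ?_, ?_⟩
        · intro z hz
          rcases Finset.mem_union.1 hz with hz | hz
          · exact hU1 z hz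
          · exact hU2 z hz
        · have := Finset.card_union_le U1 U2
          omega
        · intro A' hA' hag
          obtain ⟨h1, h2, h3⟩ := hU2s A' hA' (hag.mono Finset.subset_union_right)
          have hpA' := hp A' hA' hag
          rw [hpA, hpA']
          refine ⟨by omega, fun h => ?_, fun h => ?_⟩
          · rw [Machine.run, Machine.run, (hgood A' hA' hag).2]
            exact h2 (by omega)
          · obtain ⟨W, hW, hWc, hWs⟩ := h3 (by omega)
            refine ⟨W, hW, hWc, fun A'' hA'' hag' hag'' => ?_⟩
            have := hWs A'' hA'' (hag'.mono Finset.subset_union_right) hag''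
            rw [hp A'' hA'' hag']
            omega
      · have hpA : pathN M (BN N e A) (t + 1) w c = pathN M (BN N e A) t
              (fun i => w (i + 1)) (M.step (BN N e A) (w 0) c) := by
          rw [pathN, if_neg hyes, zero_add]
        have hlt : pathN M (BN N e A) (t + 1) w c < 2 ^ t := by
          rw [hpA]
          exact pathN_lt _ _ _ _ _
        have hbig : ∀ A', (∃ q ∈ asked M c, q ∈ BN N e A') →
            pathN M (BN N e A) (t + 1) w c < pathN M (BN N e A') (t + 1) w c := by
          intro A' h
          refine lt_of_lt_of_le hlt ?_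
          rw [pathN, if_pos h]
          omega
        have hstep : ∀ A', (¬ ∃ q ∈ asked M c, q ∈ BN N e A') →
            M.step (BN N e A') (w 0) c = M.step (BN N e A) (w 0) c := by
          intro A' h
          refine step_congr M _ _ (fun z hz => ?_)
          exact ⟨fun h' => absurd ⟨z, hz, h'⟩ h, fun h' => absurd ⟨z, hz, h'⟩ hyes⟩
        have hsame : ∀ A', (¬ ∃ q ∈ asked M c, q ∈ BN N e A') →
            pathN M (BN N e A') (t + 1) w c = pathN M (BN N e A') t
              (fun i => w (i + 1)) (M.step (BN N e A) (w 0) c) := by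
          intro A' h
          rw [pathN, if_neg h, zero_add, hstep A' h]
        refine ⟨U2, hU2, by omega, fun A' hA' hag => ?_⟩
        by_cases hyes' : ∃ q ∈ asked M c, q ∈ BN N e A'
        · have hb := hbig A' hyes'
          refine ⟨hb.le, fun h => by omega, fun _ => ?_⟩
          obtain ⟨q, hqa, hqA'⟩ := hyes'
          obtain ⟨W, hW, hWc, hWs⟩ := cert_AccN hk N e q (hq q (hqL q hqa)) hA' hqA'
          refine ⟨W, hW, hWc, fun A'' hA'' _ hag'' => hbig A'' ⟨q, hqa, ?_⟩⟩
          exact (hWs A'' hA'' hag'').2 hqA'
        · obtain ⟨h1, h2, h3⟩ := hU2s A' hA' hag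
          have hpA' := hsame A' hyes'
          rw [hpA, hpA']
          refine ⟨h1, fun h => ?_, fun h => ?_⟩
          · rw [Machine.run, Machine.run, hstep A' hyes']
            exact h2 h
          · obtain ⟨W, hW, hWc, hWs⟩ := h3 h
            refine ⟨W, hW, hWc, fun A'' hA'' hag' hag'' => ?_⟩
            by_cases hyes'' : ∃ q ∈ asked M c, q ∈ BN N e A''
            · have := hbig A'' hyes''
              rw [hpA] at this
              exact this
            · rw [hsame A'' hyes'']
              exact hWs A'' hA'' hag' hag''

end Pool.Agent.H552R2
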