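import Pool.Agent.H552R2.Guess

/-!
The gap language is in `BPP`, and the existential language is in `NP`.
-/

namespace Pool.Agent.H552R2

open Function
open Pool.Agent.Helper556.OM

/-- modifying the coins used by the machine -/
noncomputable def flip {n T : ℕ} (ι : Fin n → Fin T) (δ : Fin n → Bool) (w : Fin T → Bool) : Fin T → Bool :=
  fun j => xor (w j) (Function.extend ι δ (fun _ => false) j)

theorem flip_flip {n T : ℕ} (ι : Fin n → Fin T) (δ : Fin n → Bool) (w : Fin T → Bool) :
    flip ι δ (flip ι δ w) = w := by
  funext j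
  simp [flip]

theorem flip_comp {n T : ℕ} {ι : Fin n → Fin T} (hι : Injective ι) (δ : Fin n → Bool)
    (w : Fin T → Bool) : flip ι δ w ∘ ι = fun i => xor (w (ι i)) (δ i) := by
  funext i
  simp only [flip, comp_apply, hι.extend_apply]

theorem fiber_card {n T : ℕ} {ι : Fin n → Fin T} (hι : Injective ι) (y y' : Fin n → Bool) :
    (Finset.univ.filter (fun w : Fin T → Bool => w ∘ ι = y)).card =
      (Finset.univ.filter (fun w : Fin T → Bool => w ∘ ι = y')).card := by
  classical
  refine Finset.card_bij' (fun w _ => flip ι (fun i => xor (y i) (y' i)) w)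
    (fun w _ => flip ι (fun i => xor (y i) (y' i)) w) ?_ ?_ ?_ ?_
  · intro w hw
    rw [Finset.mem_filter] at hw ⊢
    refine ⟨Finset.mem_univ _, ?_⟩
    rw [flip_comp hι]
    funext i
    have := congrFun hw.2 i
    simp only [comp_apply] at this
    rw [this]
    cases y i <;> cases y' i <;> rfl
  · intro w hw
    rw [Finset.mem_filter] at hw ⊢
    refine ⟨Finset.mem_univ _, ?_⟩
    rw [flip_comp hι]
    funext i
    have := congrFun hw.2 i
    simp only [comp_apply] at this
    rw [this]
    cases y i <;> cases y' i <;> rfl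
  · intro w _
    exact flip_flip _ _ _
  · intro w _
    exact flip_flip _ _ _

theorem count {n T : ℕ} {ι : Fin n → Fin T} (hι : Injective ι) (S : Finset (Fin n → Bool)) :
    (Finset.univ.filter (fun w : Fin T → Bool => w ∘ ι ∈ S)).card * 2 ^ n = S.card * 2 ^ T := by
  classical
  set c := (Finset.univ.filter (fun w : Fin T → Bool => w ∘ ι = fun _ => false)).card with hc
  have h1 : ∀ S : Finset (Fin n → Bool),
      (Finset.univ.filter (fun w : Fin T → Bool => w ∘ ι ∈ S)).card = S.card * c := by
    intro S
    have hm := Finset.card_eq_sum_card_fiberwise (f := fun w : Fin T → Bool => w ∘ ι)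
      (s := Finset.univ.filter (fun w : Fin T → Bool => w ∘ ι ∈ S)) (t := S)
      (fun w hw => (Finset.mem_filter.1 hw).2)
    rw [hm]
    have : ∀ y ∈ S, ((Finset.univ.filter (fun w : Fin T → Bool => w ∘ ι ∈ S)).filter
        (fun w => w ∘ ι = y)).card = c := by
      intro y hy
      rw [hc, ← fiber_card hι y]
      congr 1
      ext w
      simp only [Finset.mem_filter, Finset.mem_univ, true_and]
      constructor
      · exact fun h => h.2
      · exact fun h => ⟨by rw [h]; exact hy, h⟩
    rw [Finset.sum_congr rfl this, Finset.sum_const, smul_eq_mul]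
  have h2 : 2 ^ n * c = 2 ^ T := by
    have := h1 Finset.univ
    simp only [Finset.mem_univ, Finset.filter_true, Finset.card_univ, Fintype.card_pi,
      Fintype.card_bool, Finset.prod_const, Fintype.card_fin] at this
    exact this.symm
  rw [h1, ← h2]
  ring

/-- the positions of the coins used -/
def pos {n T : ℕ} (h : 4 * n + 4 ≤ T) (j : Fin n) : Fin T :=
  ⟨4 * (n - 1 - j) + 1, by omega⟩

theorem pos_inj {n T : ℕ} (h : 4 * n + 4 ≤ T) : Injective (pos h) := by
  intro i j hij
  simp only [pos, Fin.mk.injEq] at hij
  have := i.2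
  have := j.2
  ext
  omega

theorem time_bound : ∃ D : ℕ, ∀ n : ℕ, 4 * n + 4 ≤ n ^ D + D := by
  obtain ⟨D, hD⟩ := pow_bound 3
  refine ⟨D, fun n => le_trans ?_ (hD n)⟩
  have : (n + 2) ^ 3 = n ^ 3 + 6 * n ^ 2 + 12 * n + 8 := by ring
  omega

open Classical in
theorem GM_acc (extra : Bool) (A : Set (List Bool)) (x : List Bool) (w : ℕ → Bool) {T : ℕ}
    (hT : 4 * x.length + 4 ≤ T) :
    (GM extra).Halted ((GM extra).run A T w ((GM extra).init x)) ∧
    ((GM extra).Accepts ((GM extra).run A T w ((GM extra).init x)) ↔
      pre extra ++ List.ofFn (fun j : Fin x.length => w (4 * (x.length - 1 - j) + 1)) ∈ A) := by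
  obtain ⟨σ', h⟩ := GM_run extra A x (fun k => if k = 0 then x else []) w (by simp)
  have hinit : (GM extra).init x = gc extra .R (fun k => if k = 0 then x else []) := rfl
  rw [hinit]
  have hh : (GM extra).Halted ((GM extra).run A (4 * x.length + 4) w
      (gc extra .R (fun k => if k = 0 then x else []))) := by
    rw [h]
    exact ⟨_, rfl⟩
  rw [run_mono _ _ _ hT hh]
  refine ⟨hh, ?_⟩
  rw [h]
  have : (GM extra).Accepts (gc extra (.H (decide
      (pre extra ++ (List.ofFn (fun j : Fin x.length => w (4 * (x.length - 1 - j) + 1)) ++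
        (fun k => if k = 0 then x else ([] : List Bool)) 1) ∈ A))) σ') ↔
      decide (pre extra ++ (List.ofFn (fun j : Fin x.length => w (4 * (x.length - 1 - j) + 1)) ++
        (fun k => if k = 0 then x else ([] : List Bool)) 1) ∈ A) = true := by
    unfold Machine.Accepts
    change (Act.halt _ : Act GQ) = Act.halt true ↔ _
    simp only [Act.halt.injEq]
  rw [this]
  simp

theorem L1_BPP {A : Set (List Bool)} (hA : Bal A) : InBPP A (L1 A) := by
  classical
  obtain ⟨D, hD⟩ := time_bound
  refine ⟨GM false, D, fun x => ⟨fun w => (GM_acc false A x w (hD _)).1, ?_⟩⟩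
  have hacc : ∀ w : Fin (x.length ^ D + D) → Bool,
      (GM false).Accepts ((GM false).run A (x.length ^ D + D) (ext w) ((GM false).init x)) ↔
        w ∘ pos (hD x.length) ∈ dset x.length A := by
    intro w
    rw [(GM_acc false A x (ext w) (hD _)).2, mem_dset]
    have : pre false ++ List.ofFn (fun j : Fin x.length => ext w (4 * (x.length - 1 - j) + 1))
        = dp (w ∘ pos (hD x.length)) := by
      simp only [pre, dp, Bool.false_eq_true, if_false, List.cons_append, List.nil_append,
        List.cons.injEq, true_and]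
      congr 1
      funext j
      simp only [ext, comp_apply, pos]
      have h1 := hD x.length
      have h2 := j.2
      rw [dif_pos (by omega)]
    rw [this]
  simp only [hacc]
  have hcount := count (pos_inj (hD x.length)) (dset x.length A)
  set T := x.length ^ D + D with hT
  set F := Finset.univ.filter (fun w : Fin T → Bool => w ∘ pos (hD x.length) ∈ dset x.length A)
    with hF
  have hpos : 0 < 2 ^ x.length := by positivity
  by_cases hx : x ∈ L1 A
  · have h1 : (Finset.univ.filter (fun w : Fin T → Bool =>
        (w ∘ pos (hD x.length) ∈ dset x.length A ↔ x ∈ L1 A))) = F := by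
      rw [hF]
      refine Finset.filter_congr (fun w _ => ?_)
      simp [hx]
    rw [h1]
    have h2 : 2 * 2 ^ x.length ≤ 3 * (dset x.length A).card := hx
    refine Nat.le_of_mul_le_mul_right (c := 2 ^ x.length) ?_ hpos
    calc 2 * 2 ^ T * 2 ^ x.length = (2 * 2 ^ x.length) * 2 ^ T := by ring
      _ ≤ (3 * (dset x.length A).card) * 2 ^ T := Nat.mul_le_mul_right _ h2
      _ = 3 * (F.card * 2 ^ x.length) := by rw [hcount]; ring
      _ = 3 * F.card * 2 ^ x.length := by ring
  · have h1 : (Finset.univ.filter (fun w : Fin T → Bool =>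
        (w ∘ pos (hD x.length) ∈ dset x.length A ↔ x ∈ L1 A))) = Fᶜ := by
      ext w
      rw [Finset.mem_compl, hF, Finset.mem_filter, Finset.mem_filter]
      simp [hx]
    rw [h1]
    have h2 : ¬ 2 * 2 ^ x.length ≤ 3 * (dset x.length A).card := hx
    have h3 : 3 * (dset x.length A).card ≤ 2 ^ x.length := by
      rcases hA x.length with h | h
      · exact h
      · exact absurd h h2
    have h4 : 3 * F.card ≤ 2 ^ T := by
      refine Nat.le_of_mul_le_mul_right (c := 2 ^ x.length) ?_ hpos
      calc 3 * F.card * 2 ^ x.length = 3 * (F.card * 2 ^ x.length) := by ring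
        _ = (3 * (dset x.length A).card) * 2 ^ T := by rw [hcount]; ring
        _ ≤ 2 ^ x.length * 2 ^ T := Nat.mul_le_mul_right _ h3
        _ = 2 ^ T * 2 ^ x.length := by ring
    have h5 : F.card + Fᶜ.card = 2 ^ T := by
      rw [Finset.card_add_card_compl]
      simp
    have h6 : 2 * 2 ^ T ≤ 3 * Fᶜ.card := by omega
    exact h6

theorem L2_NP (A : Set (List Bool)) : InNP A (L2 A) := by
  obtain ⟨D, hD⟩ := time_bound
  refine ⟨GM true, D, fun x => ⟨fun w => (GM_acc true A x w (hD _)).1, ?_⟩⟩
  have hacc : ∀ w : ℕ → Bool,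
      (GM true).Accepts ((GM true).run A (x.length ^ D + D) w ((GM true).init x)) ↔
        ep (fun j : Fin x.length => w (4 * (x.length - 1 - j) + 1)) ∈ A := by
    intro w
    rw [(GM_acc true A x w (hD _)).2]
    rfl
  simp only [hacc]
  constructor
  · rintro ⟨y, hy⟩
    refine ⟨fun i => if h : i / 4 < x.length then y ⟨x.length - 1 - i / 4, by omega⟩ else false,
      ?_⟩
    have : (fun j : Fin x.length => (fun i => if h : i / 4 < x.length then
        y ⟨x.length - 1 - i / 4, by omega⟩ else false) (4 * (x.length - 1 - j) + 1)) = y := by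
      funext j
      have h2 := j.2
      have h3 : (4 * (x.length - 1 - (j : ℕ)) + 1) / 4 = x.length - 1 - j := by omega
      simp only [h3]
      rw [dif_pos (by omega)]
      congr 1
      ext
      simp only
      omega
    rw [this]
    exact hy
  · rintro ⟨w, hw⟩
    exact ⟨_, hw⟩

end Pool.Agent.H552R2
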