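import Pool.Agent.H552R2.Good

/-!
Bounded error computations are sensitive to few disjoint modifications only.
-/

namespace Pool.Agent.H552R2

open Function
open Pool.Agent.Helper556.OM

variable {tk : ℕ → Task}

open Classical in
theorem sens_bound {p : Cond} {f : Set (List Bool) → Prop} {T : ℕ}
    {acc : Set (List Bool) → (Fin T → Bool) → Prop} {c : ℕ}
    (hU : ∀ A, Good tk p A → ∀ w, Cert tk p (fun A' => acc A' w) c A)
    (hrob : ∀ A, Good tk p A →
      2 * 2 ^ T ≤ 3 * (Finset.univ.filter (fun w : Fin T → Bool => (acc A w ↔ f A))).card)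
    {A : Set (List Bool)} (hA : Good tk p A) {r : ℕ} (B : Fin r → Finset (List Bool))
    (Ai : Fin r → Set (List Bool)) (hd : ∀ i j, i ≠ j → Disjoint (B i) (B j))
    (hAi : ∀ i, Good tk p (Ai i))
    (hoff : ∀ i z, ¬ IsCode tk p.R z → z ∉ B i → (z ∈ Ai i ↔ z ∈ A))
    (hne : ∀ i, ¬ (f (Ai i) ↔ f A)) : r ≤ 3 * c := by
  choose S hS1 hS2 hS3 using hU A hA
  have hcardT : (Finset.univ : Finset (Fin T → Bool)).card = 2 ^ T := by simp
  -- each block is hit often
  have h1 : ∀ i, 2 ^ T ≤ 3 * (Finset.univ.filter
      (fun w : Fin T → Bool => ¬ Disjoint (S w) (B i))).card := by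
    intro i
    set X := Finset.univ.filter (fun w : Fin T → Bool => (acc A w ↔ f A)) with hX
    set Y := Finset.univ.filter (fun w : Fin T → Bool => (acc (Ai i) w ↔ f (Ai i))) with hY
    have hXc := hrob A hA
    have hYc := hrob (Ai i) (hAi i)
    rw [← hX] at hXc
    rw [← hY] at hYc
    have hsub : X ∩ Y ⊆ Finset.univ.filter (fun w : Fin T → Bool => ¬ Disjoint (S w) (B i)) := by
      intro w hw
      rw [Finset.mem_inter, hX, hY, Finset.mem_filter, Finset.mem_filter] at hw
      rw [Finset.mem_filter]
      refine ⟨Finset.mem_univ _, fun hdis => hne i ?_⟩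
      have hag : Ag (S w) A (Ai i) := fun z hz =>
        (hoff i z (hS1 w z hz) (fun hzB => (Finset.disjoint_left.1 hdis hz) hzB)).symm
      have := hS3 w (Ai i) (hAi i) hag
      rw [← hw.1.2, ← hw.2.2]
      exact this
    have h2 := Finset.card_le_card hsub
    have h3 : (X ∪ Y).card ≤ 2 ^ T := by
      rw [← hcardT]
      exact Finset.card_le_univ _
    have h4 := Finset.card_union_add_card_inter X Y
    omega
  -- every computation hits few blocks
  have h2 : ∀ w : Fin T → Bool,
      (Finset.univ.filter (fun i : Fin r => ¬ Disjoint (S w) (B i))).card ≤ c := by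
    intro w
    refine le_trans ?_ (hS2 w)
    have hex : ∀ i ∈ Finset.univ.filter (fun i : Fin r => ¬ Disjoint (S w) (B i)),
        ∃ z, z ∈ S w ∧ z ∈ B i := by
      intro i hi
      rw [Finset.mem_filter] at hi
      exact Finset.not_disjoint_iff.1 hi.2
    choose! g hg1 hg2 using hex
    refine Finset.card_le_card_of_injOn g (fun i hi => hg1 i hi) (fun i hi j hj hij => ?_)
    by_contra hne'
    have h := Finset.disjoint_left.1 (hd i j hne') (hg2 i hi)
    rw [hij] at h
    exact h (hg2 j hj)
  have h3 : ∑ i : Fin r, (Finset.univ.filter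
      (fun w : Fin T → Bool => ¬ Disjoint (S w) (B i))).card =
      ∑ w : Fin T → Bool, (Finset.univ.filter
        (fun i : Fin r => ¬ Disjoint (S w) (B i))).card := by
    simp only [Finset.card_filter]
    exact Finset.sum_comm
  have h4 : ∑ w : Fin T → Bool, (Finset.univ.filter
        (fun i : Fin r => ¬ Disjoint (S w) (B i))).card ≤ 2 ^ T * c := by
    calc _ ≤ ∑ _w : Fin T → Bool, c := Finset.sum_le_sum (fun w _ => h2 w)
      _ = 2 ^ T * c := by rw [Finset.sum_const, hcardT, smul_eq_mul]
  have h5 : r * 2 ^ T ≤ 3 * ∑ i : Fin r, (Finset.univ.filter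
      (fun w : Fin T → Bool => ¬ Disjoint (S w) (B i))).card := by
    rw [Finset.mul_sum]
    calc r * 2 ^ T = ∑ _i : Fin r, 2 ^ T := by simp
      _ ≤ _ := Finset.sum_le_sum (fun i _ => h1 i)
  have h6 : r * 2 ^ T ≤ (3 * c) * 2 ^ T := by
    calc r * 2 ^ T ≤ 3 * (2 ^ T * c) := h5.trans (Nat.mul_le_mul_left _ (h3 ▸ h4))
      _ = (3 * c) * 2 ^ T := by ring
  exact Nat.le_of_mul_le_mul_right h6 (by positivity)

open Classical in
/-- a small set hitting all small sensitive modifications -/
theorem hit {p : Cond} {f : Set (List Bool) → Prop} {T : ℕ}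
    {acc : Set (List Bool) → (Fin T → Bool) → Prop} {c : ℕ}
    (hU : ∀ A, Good tk p A → ∀ w, Cert tk p (fun A' => acc A' w) c A)
    (hrob : ∀ A, Good tk p A →
      2 * 2 ^ T ≤ 3 * (Finset.univ.filter (fun w : Fin T → Bool => (acc A w ↔ f A))).card)
    (b : ℕ) {A : Set (List Bool)} (hA : Good tk p A) :
    ∃ S : Finset (List Bool), (∀ z ∈ S, ¬ IsCode tk p.R z) ∧ S.card ≤ 3 * c * b ∧
      ∀ (B : Finset (List Bool)) (A' : Set (List Bool)), B.card ≤ b → Good tk p A' →
        (∀ z, ¬ IsCode tk p.R z → z ∉ B → (z ∈ A' ↔ z ∈ A)) → Disjoint B S →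
        (f A' ↔ f A) := by
  by_contra hcon
  have key : ∀ r : ℕ, ∃ (B : Fin r → Finset (List Bool)) (Ai : Fin r → Set (List Bool)),
      (∀ i, ∀ z ∈ B i, ¬ IsCode tk p.R z) ∧ (∀ i, (B i).card ≤ b) ∧
      (∀ i j, i ≠ j → Disjoint (B i) (B j)) ∧ (∀ i, Good tk p (Ai i)) ∧
      (∀ i z, ¬ IsCode tk p.R z → z ∉ B i → (z ∈ Ai i ↔ z ∈ A)) ∧
      (∀ i, ¬ (f (Ai i) ↔ f A)) := by
    intro r
    induction r with
    | zero =>
        exact ⟨fun i => i.elim0, fun i => i.elim0, fun i => i.elim0, fun i => i.elim0,
          fun i => i.elim0, fun i => i.elim0, fun i => i.elim0, fun i => i.elim0⟩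
    | succ r ih =>
        obtain ⟨B, Ai, h1, h2, h3, h4, h5, h6⟩ := ih
        have hr := sens_bound hU hrob hA B Ai h3 h4 h5 h6
        have hS : ¬ ∀ (B' : Finset (List Bool)) (A' : Set (List Bool)), B'.card ≤ b →
            Good tk p A' → (∀ z, ¬ IsCode tk p.R z → z ∉ B' → (z ∈ A' ↔ z ∈ A)) →
            Disjoint B' (Finset.univ.biUnion B) → (f A' ↔ f A) := by
          intro hall
          refine hcon ⟨Finset.univ.biUnion B, ?_, ?_, hall⟩
          · intro z hz
            obtain ⟨i, -, hi⟩ := Finset.mem_biUnion.1 hz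
            exact h1 i z hi
          · calc (Finset.univ.biUnion B).card ≤ ∑ i : Fin r, (B i).card :=
                  Finset.card_biUnion_le
              _ ≤ ∑ _i : Fin r, b := Finset.sum_le_sum (fun i _ => h2 i)
              _ = r * b := by simp
              _ ≤ _ := Nat.mul_le_mul_right _ hr
        push Not at hS
        obtain ⟨B', A', hb', hA', hoff', hdis', hne'⟩ := hS
        refine ⟨Fin.cons (B'.filter (fun z => ¬ IsCode tk p.R z)) B, Fin.cons A' Ai,
          ?_, ?_, ?_, ?_, ?_, ?_⟩
        · intro i
          refine Fin.cases ?_ (fun j => ?_) i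
          · intro z hz
            rw [Fin.cons_zero, Finset.mem_filter] at hz
            exact hz.2
          · rw [Fin.cons_succ]
            exact h1 j
        · intro i
          refine Fin.cases ?_ (fun j => ?_) i
          · rw [Fin.cons_zero]
            exact (Finset.card_filter_le _ _).trans hb'
          · rw [Fin.cons_succ]
            exact h2 j
        · have hd0 : ∀ j, Disjoint (B'.filter (fun z => ¬ IsCode tk p.R z)) (B j) := by
            intro j
            rw [Finset.disjoint_left]
            intro z hz hzj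
            rw [Finset.mem_filter] at hz
            exact Finset.disjoint_left.1 hdis' hz.1
              (Finset.mem_biUnion.2 ⟨j, Finset.mem_univ _, hzj⟩)
          intro i j
          refine Fin.cases ?_ (fun i' => ?_) i
          · refine Fin.cases ?_ (fun j' => ?_) j
            · intro h; exact absurd rfl h
            · intro _
              rw [Fin.cons_zero, Fin.cons_succ]
              exact hd0 j'
          · refine Fin.cases ?_ (fun j' => ?_) j
            · intro _
              rw [Fin.cons_zero, Fin.cons_succ]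
              exact (hd0 i').symm
            · intro h
              rw [Fin.cons_succ, Fin.cons_succ]
              exact h3 i' j' (fun h' => h (by rw [h']))
        · intro i
          refine Fin.cases ?_ (fun j => ?_) i
          · exact hA'
          · rw [Fin.cons_succ]
            exact h4 j
        · intro i
          refine Fin.cases ?_ (fun j => ?_) i
          · intro z hc hz
            rw [Fin.cons_zero] at hz ⊢
            refine hoff' z hc (fun hzB => hz (Finset.mem_filter.2 ⟨hzB, hc⟩))
          · rw [Fin.cons_succ, Fin.cons_succ]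
            exact h5 j
        · intro i
          refine Fin.cases ?_ (fun j => ?_) i
          · rw [Fin.cons_zero]
            intro h
            rcases hne' with ⟨h1, h2⟩ | ⟨h1, h2⟩
            · exact h2 (h.1 h1)
            · exact h1 (h.2 h2)
          · rw [Fin.cons_succ]
            exact h6 j
  obtain ⟨B, Ai, -, -, h3, h4, h5, h6⟩ := key (3 * c + 1)
  have := sens_bound hU hrob hA B Ai h3 h4 h5 h6
  omega

end Pool.Agent.H552R2
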