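import Pool.Agent.H552R2.CertAll

/-!
Extending conditions so that requirements are met.
-/

namespace Pool.Agent.H552R2

open Function
open Pool.Agent.Helper556.OM

variable {tk : ℕ → Task}

/-! ### growth -/

theorem pow_lt_two_pow (c : ℕ) : ∃ N0 : ℕ, ∀ n ≥ N0, (n + 2) ^ c < 2 ^ n := by
  have h := tendsto_pow_const_div_const_pow_of_one_lt c (r := (2 : ℝ)) (by norm_num)
  have h2 : ∀ᶠ n : ℕ in Filter.atTop, (n : ℝ) ^ c / 2 ^ n < 1 / 4 :=
    h.eventually (gt_mem_nhds (by norm_num))
  obtain ⟨N0, hN0⟩ := Filter.eventually_atTop.1 h2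
  refine ⟨N0, fun n hn => ?_⟩
  have h3 := hN0 (n + 2) (by omega)
  have h4 : (0 : ℝ) < 2 ^ (n + 2) := by positivity
  rw [div_lt_iff₀ h4] at h3
  have h5 : ((n + 2 : ℕ) : ℝ) ^ c < 2 ^ n := by
    have h6 : (1 : ℝ) / 4 * 2 ^ (n + 2) = 2 ^ n := by ring
    rw [h6] at h3
    exact_mod_cast h3
  exact_mod_cast h5

theorem PB.exists_lt {T : (Fin 1 → ℕ) → ℕ} (hT : PB T) (N : ℕ) :
    ∃ n ≥ N, T (fun _ => n) < 2 ^ n := by
  obtain ⟨c, hc⟩ := hT
  obtain ⟨N0, hN0⟩ := pow_lt_two_pow c
  refine ⟨max N N0, le_max_left _ _, lt_of_le_of_lt (hc _) ?_⟩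
  rw [Fin.sum_univ_one]
  exact hN0 _ (le_max_right _ _)

/-! ### conditions -/

variable (tk) in
/-- a consistent condition -/
def Valid (p : Cond) : Prop := Good tk p p.A0 ∧ Robust tk p

/-- extension of conditions -/
def Ext (p q : Cond) : Prop :=
  p.l ≤ q.l ∧ (∀ z : List Bool, z.length < p.l → (z ∈ q.A0 ↔ z ∈ p.A0)) ∧ p.R ⊆ q.R

theorem Ext.refl (p : Cond) : Ext p p := ⟨le_refl _, fun _ _ => Iff.rfl, Set.Subset.refl _⟩

theorem Ext.trans {p q r : Cond} (h : Ext p q) (h' : Ext q r) : Ext p r :=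
  ⟨h.1.trans h'.1, fun z hz => (h'.2.1 z (lt_of_lt_of_le hz h.1)).trans (h.2.1 z hz),
    h.2.2.trans h'.2.2⟩

theorem Good.of_ext {p q : Cond} (h : Ext p q) {A : Set (List Bool)} (hA : Good tk q A) :
    Good tk p A :=
  ⟨fun z hz => (hA.1 z (lt_of_lt_of_le hz h.1)).trans (h.2.1 z hz),
    fun i m x hR => hA.2.1 i m x (h.2.2 hR), hA.2.2⟩

/-- fixing a longer finite part of a good oracle -/
def freeze (p : Cond) (A : Set (List Bool)) (l : ℕ) : Cond := ⟨max p.l l, A, p.R⟩

theorem freeze_ext {p : Cond} {A : Set (List Bool)} (hA : Good tk p A) (l : ℕ) :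
    Ext p (freeze p A l) :=
  ⟨le_max_left _ _, hA.1, Set.Subset.refl _⟩

theorem freeze_valid {p : Cond} (hp : Valid tk p) {A : Set (List Bool)} (hA : Good tk p A)
    (l : ℕ) : Valid tk (freeze p A l) := by
  refine ⟨⟨fun z _ => Iff.rfl, hA.2⟩, fun A' hA' => ?_⟩
  exact hp.2 A' (hA'.of_ext (freeze_ext hA l))

/-- meeting a local requirement -/
theorem stage_local {p : Cond} (hp : Valid tk p) (Bad : Set (List Bool) → Prop) (l : ℕ)
    (hloc : ∀ A A' : Set (List Bool), (∀ z : List Bool, z.length < l → (z ∈ A ↔ z ∈ A')) →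
      Bad A → Bad A')
    (hex : ∃ A, Good tk p A ∧ Bad A) :
    ∃ q, Valid tk q ∧ Ext p q ∧ ∀ A, Good tk q A → Bad A := by
  obtain ⟨A, hA, hbad⟩ := hex
  refine ⟨freeze p A l, freeze_valid hp hA l, freeze_ext hA l, fun A' hA' => ?_⟩
  exact hloc A A' (fun z hz => (hA'.1 z (lt_of_lt_of_le hz (le_max_right _ _))).symm) hbad

/-! ### codes -/

/-- the requirement for a task -/
def ReqA (tk : ℕ → Task) (i : ℕ) (A : Set (List Bool)) : Prop :=
  (∃ m, ∀ x, (codeStr (tk i) i m x ∈ A ↔ (tk i).val A x)) ∨ ∃ x, ¬ (tk i).ok A x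

theorem stageA {p : Cond} (hp : Valid tk p) (i : ℕ) :
    ∃ q, Valid tk q ∧ Ext p q ∧ ∀ A, Good tk q A → ReqA tk i A := by
  by_cases hall : ∀ A, Good tk p A → ∀ x, (tk i).ok A x
  · -- promise the code
    set R' : Set (ℕ × ℕ) := insert (i, p.l) p.R with hR'
    set q : Cond := ⟨p.l, fix tk R' p.A0, R'⟩ with hq
    have hcode : ∀ z : List Bool, z.length < p.l → IsCode tk R' z → IsCode tk p.R z := by
      rintro z hz ⟨j, m, x, hjm, rfl⟩
      rcases hjm with h | h
      · exfalso
        simp only [Prod.mk.injEq] at h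
        obtain ⟨rfl, rfl⟩ := h
        rw [codeStr_length] at hz
        unfold Task.pad at hz
        omega
      · exact ⟨j, m, x, h, rfl⟩
    have hlow : ∀ z : List Bool, z.length < p.l → (z ∈ fix tk R' p.A0 ↔ z ∈ p.A0) := by
      refine coded_ext (R := p.R) (fun j m x h => fix_coded R' p.A0 j m x
        (Set.mem_insert_of_mem _ h)) hp.1.2.1 p.l (fun z hz hc => ?_)
      exact mem_fix_of_not_code _ (fun h => hc (hcode z hz h))
    have hext : Ext p q := ⟨le_refl _, hlow, Set.subset_insert _ _⟩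
    have hgood : Good tk q q.A0 := ⟨fun z _ => Iff.rfl, fix_coded _ _, bal_fix hp.1.2.2⟩
    refine ⟨q, ⟨hgood, ?_⟩, hext, ?_⟩
    · intro A hA j m hjm x
      have hA' := hA.of_ext hext
      rcases hjm with h | h
      · simp only [Prod.mk.injEq] at h
        obtain ⟨rfl, rfl⟩ := h
        exact hall A hA' x
      · exact hp.2 A hA' j m h x
    · intro A hA
      exact Or.inl ⟨p.l, fun x => hA.2.1 i p.l x (Set.mem_insert _ _)⟩
  · push Not at hall
    obtain ⟨A, hA, x, hx⟩ := hall
    obtain ⟨q, h1, h2, h3⟩ := stage_local hp (fun A => ¬ (tk i).ok A x)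
      ((tk i).t x.length + 1) (fun A A' h hA hA' => hA ((ok_congr (tk i) x (fun z hz =>
        h z (by omega))).2 hA')) ⟨A, hA, hx⟩
    exact ⟨q, h1, h2, fun A hA => Or.inr ⟨x, h3 A hA⟩⟩

/-! ### the gap language is not in `P^NP` -/

/-- the gap language -/
def L1 (A : Set (List Bool)) : Set (List Bool) :=
  {x | 2 * 2 ^ x.length ≤ 3 * (dset x.length A).card}

theorem settle {p : Cond} {k : ℕ} (hk : CertUp tk p k) (M N : Machine) (e : ℕ) :
    ∀ (t : ℕ) (w : ℕ → Bool) (c : M.Config) (L : ℕ), (∀ r, (c.2 r).length ≤ L) →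
      (∀ q : List Bool, q.length ≤ L + t → q.length + (q.length ^ e + e) ≤ k) →
      ∀ A (V : Finset (List Bool)), Good tk p A → (∀ z ∈ V, ¬ IsCode tk p.R z) →
      ∃ (A2 : Set (List Bool)) (V2 : Finset (List Bool)), Good tk p A2 ∧
        (∀ z ∈ V2, ¬ IsCode tk p.R z) ∧ V ⊆ V2 ∧ Ag V A A2 ∧
        V2.card ≤ V.card + t * (k * (k + 1)) ∧
        ∀ A', Good tk p A' → Ag V2 A2 A' →
          M.run (BN N e A') t w c = M.run (BN N e A2) t w c := by
  classical
  intro t
  induction t with
  | zero =>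
      intro w c L _ _ A V hA hV
      exact ⟨A, V, hA, hV, Finset.Subset.refl _, fun z _ => Iff.rfl, by simp, fun A' _ _ => rfl⟩
  | succ t ih =>
      intro w c L hL hq A V hA hV
      have hcL : ∀ (O : Set (List Bool)) r, ((M.step O (w 0) c).2 r).length ≤ L + 1 :=
        fun O r => by
          have h1 := Machine.step_length (A := O) M (w 0) c r
          have h2 := hL r
          omega
      have hqL : ∀ q ∈ asked M c, q.length ≤ L + (t + 1) := by
        intro q hqa
        unfold asked at hqa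
        split at hqa
        · rename_i r f hr
          simp only [List.mem_singleton] at hqa
          subst hqa
          have := hL r
          omega
        · simp at hqa
      have hmul : (t + 1) * (k * (k + 1)) = t * (k * (k + 1)) + k * (k + 1) := by ring
      by_cases hex : ∃ A1, Good tk p A1 ∧ Ag V A A1 ∧ ∃ q ∈ asked M c, q ∈ BN N e A1
      · obtain ⟨A1, hA1, hag1, q, hqa, hq1⟩ := hex
        obtain ⟨W, hW1, hW2, hW3⟩ := cert_AccN hk N e q (hq q (hqL q hqa)) hA1 hq1
        have hstep : ∀ A', Good tk p A' → Ag W A1 A' →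
            M.step (BN N e A') (w 0) c = M.step (BN N e A1) (w 0) c := by
          intro A' hA' hag
          have h1 : q ∈ BN N e A' := (hW3 A' hA' hag).2 hq1
          refine step_congr M _ _ (fun z hz => ?_)
          rw [asked_eq M c hqa hz]
          exact ⟨fun _ => hq1, fun _ => h1⟩
        have hVW : ∀ z ∈ V ∪ W, ¬ IsCode tk p.R z := by
          intro z hz
          rcases Finset.mem_union.1 hz with hz | hz
          · exact hV z hz
          · exact hW1 z hz
        obtain ⟨A2, V2, hA2, hV2, hsub, hag2, hcard, hrun⟩ := ih (fun i => w (i + 1))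
          (M.step (BN N e A1) (w 0) c) (L + 1) (hcL _) (fun q hq' => hq q (by omega)) A1 (V ∪ W)
          hA1 hVW
        refine ⟨A2, V2, hA2, hV2, Finset.subset_union_left.trans hsub, ?_, ?_, ?_⟩
        · intro z hz
          exact (hag1 z hz).trans (hag2 z (Finset.mem_union_left _ hz))
        · have := Finset.card_union_le V W
          omega
        · intro A' hA' hag
          have h1 : Ag W A1 A' := fun z hz => by
            have hz' := Finset.mem_union_right V hz
            exact (hag2 z hz').trans (hag z (hsub hz'))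
          have h2 : Ag W A1 A2 := fun z hz => hag2 z (Finset.mem_union_right V hz)
          rw [Machine.run, Machine.run, hstep A' hA' h1, hstep A2 hA2 h2]
          exact hrun A' hA' hag
      · have hstep : ∀ A', Good tk p A' → Ag V A A' →
            M.step (BN N e A') (w 0) c = M.step (BN N e A) (w 0) c := by
          intro A' hA' hag
          refine step_congr M _ _ (fun z hz => ?_)
          constructor
          · intro h
            exact absurd ⟨A', hA', hag, z, hz, h⟩ hex
          · intro h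
            exact absurd ⟨A, hA, fun _ _ => Iff.rfl, z, hz, h⟩ hex
        obtain ⟨A2, V2, hA2, hV2, hsub, hag2, hcard, hrun⟩ := ih (fun i => w (i + 1))
          (M.step (BN N e A) (w 0) c) (L + 1) (hcL _) (fun q hq' => hq q (by omega)) A V
          hA hV
        refine ⟨A2, V2, hA2, hV2, hsub, hag2, by omega, ?_⟩
        intro A' hA' hag
        have h1 : Ag V A A' := fun z hz => (hag2 z hz).trans (hag z (hsub hz))
        rw [Machine.run, Machine.run, hstep A' hA' h1, hstep A2 hA2 hag2]
        exact hrun A' hA' hag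

open Classical in
/-- making a block of the gap region empty or full outside a finite set -/
theorem block {p : Cond} {A : Set (List Bool)} (hA : Good tk p A) (V : Finset (List Bool))
    (hV : ∀ z ∈ V, ¬ IsCode tk p.R z) (n : ℕ) (hn : p.l ≤ n) (hVn : 3 * V.card ≤ 2 ^ n)
    (P : Prop) :
    ∃ A2, Good tk p A2 ∧ Ag V A A2 ∧
      (2 * 2 ^ n ≤ 3 * (dset n A2).card ↔ P) := by
  set G : Set (List Bool) := {z | if (∃ y : Fin n → Bool, z = dp y) ∧ z ∉ V then P else z ∈ A}
    with hG
  have hGo : ∀ z, ¬ ((∃ y : Fin n → Bool, z = dp y) ∧ z ∉ V) → (z ∈ G ↔ z ∈ A) := by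
    intro z hz
    simp only [hG, Set.mem_ofPred_eq, if_neg hz]
  have hGi : ∀ y : Fin n → Bool, dp y ∉ V → (dp y ∈ G ↔ P) := by
    intro y hy
    simp only [hG, Set.mem_ofPred_eq, if_pos (show (∃ y' : Fin n → Bool, dp y = dp y') ∧
      dp y ∉ V from ⟨⟨y, rfl⟩, hy⟩)]
  have hcardV : ((Finset.univ : Finset (Fin n → Bool)).filter (fun y => dp y ∈ V)).card
      ≤ V.card := by
    rw [← Finset.card_image_of_injective _ (dp_inj (n := n))]
    refine Finset.card_le_card (fun z hz => ?_)
    obtain ⟨y, hy, rfl⟩ := Finset.mem_image.1 hz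
    exact (Finset.mem_filter.1 hy).2
  have hlo : ¬ P → 3 * (dset n G).card ≤ 2 ^ n := by
    intro hP
    have : dset n G ⊆ (Finset.univ : Finset (Fin n → Bool)).filter (fun y => dp y ∈ V) := by
      intro y hy
      rw [mem_dset] at hy
      rw [Finset.mem_filter]
      refine ⟨Finset.mem_univ _, ?_⟩
      by_contra h
      exact hP ((hGi y h).1 hy)
    have := Finset.card_le_card this
    omega
  have hhi : P → 2 * 2 ^ n ≤ 3 * (dset n G).card := by
    intro hP
    have h1 : (dset n G)ᶜ ⊆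
        (Finset.univ : Finset (Fin n → Bool)).filter (fun y => dp y ∈ V) := by
      intro y hy
      rw [Finset.mem_compl, mem_dset] at hy
      rw [Finset.mem_filter]
      refine ⟨Finset.mem_univ _, ?_⟩
      by_contra h
      exact hy ((hGi y h).2 hP)
    have h2 := Finset.card_le_card h1
    have h3 : (dset n G).card + (dset n G)ᶜ.card = 2 ^ n := by
      rw [Finset.card_add_card_compl]
      simp
    omega
  have hbal : Bal G := by
    intro k
    by_cases hk : k = n
    · subst hk
      by_cases hP : P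
      · exact Or.inr (hhi hP)
      · exact Or.inl (hlo hP)
    · have : dset k G = dset k A := by
        refine dset_congr (fun y => hGo _ ?_)
        rintro ⟨⟨y', hy'⟩, -⟩
        have := congrArg List.length hy'
        simp only [dp_length] at this
        omega
      rw [this]
      exact hA.2.2 k
  have hdG : dset n (fix tk p.R G) = dset n G :=
    dset_congr (fun y => mem_fix_of_not_code G (dp_not_code y))
  refine ⟨fix tk p.R G, good_fix hA hbal ?_, ?_, ?_⟩
  · intro z hz _
    refine hGo z ?_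
    rintro ⟨⟨y, rfl⟩, -⟩
    simp only [dp_length] at hz
    omega
  · intro z hz
    rw [mem_fix_of_not_code G (hV z hz)]
    exact (hGo z (fun h => h.2 hz)).symm
  · rw [hdG]
    constructor
    · intro h
      by_contra hP
      have := hlo hP
      have : 0 < 2 ^ n := by positivity
      omega
    · exact hhi

/-- the requirement for the gap language -/
def ReqB (M0 : FM) (d0 : ℕ) (N : FM) (e : ℕ) (A : Set (List Bool)) : Prop :=
  ∃ x, ¬ (x ∈ L1 A ↔ Acc M0.toM d0 (BN N.toM e A) x w0)

theorem stageB {p : Cond} (hp : Valid tk p) (M0 : FM) (d0 : ℕ) (N : FM) (e : ℕ) :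
    ∃ q, Valid tk q ∧ Ext p q ∧ ∀ A, Good tk q A → ReqB M0 d0 N e A := by
  -- a large length
  set b : ℕ → ℕ := fun n => n + (n ^ d0 + d0) with hb
  set k : ℕ → ℕ := fun n => b n + (b n ^ e + e) with hk
  have hPB : PB (fun v : Fin 1 → ℕ =>
      3 * ((v 0 ^ d0 + d0) * (k (v 0) * (k (v 0) + 1)))) := by
    have hid := PB.proj (0 : Fin 1)
    have h1 : PB (fun v : Fin 1 → ℕ => v 0 ^ d0 + d0) := (hid.pow d0).add (PB.const d0)
    have h2 : PB (fun v : Fin 1 → ℕ => b (v 0)) := hid.add h1
    have h3 : PB (fun v : Fin 1 → ℕ => k (v 0)) := h2.add ((h2.pow e).add (PB.const e))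
    exact (PB.const 3).mul (h1.mul (h3.mul (h3.add (PB.const 1))))
  obtain ⟨n, hn, hlt⟩ := PB.exists_lt hPB p.l
  simp only at hlt
  set x : List Bool := List.replicate n false with hx
  have hxl : x.length = n := by simp [hx]
  have hloc : ∀ A A' : Set (List Bool), (∀ z : List Bool, z.length < k n + 1 + (n + 2) →
      (z ∈ A ↔ z ∈ A')) →
      ¬ (x ∈ L1 A ↔ Acc M0.toM d0 (BN N.toM e A) x w0) →
      ¬ (x ∈ L1 A' ↔ Acc M0.toM d0 (BN N.toM e A') x w0) := by
    intro A A' h hbad
    have h1 : x ∈ L1 A ↔ x ∈ L1 A' := by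
      have : dset x.length A = dset x.length A' := by
        refine dset_congr (fun y => h _ ?_)
        rw [dp_length, hxl]
        omega
      unfold L1
      simp only [Set.mem_ofPred_eq]
      rw [this]
    have h2 : Acc M0.toM d0 (BN N.toM e A) x w0 ↔ Acc M0.toM d0 (BN N.toM e A') x w0 := by
      refine Acc_congr _ _ _ _ (fun q hq => BN_congr _ _ (b n) (fun z hz => h z ?_) q ?_)
      · simp only [hk] at *
        omega
      · have := Qs_len _ _ _ _ _ _ hq
        rw [hxl] at this
        exact this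
    rw [← h1, ← h2]
    exact hbad
  have hex : ∃ A, Good tk p A ∧ ¬ (x ∈ L1 A ↔ Acc M0.toM d0 (BN N.toM e A) x w0) := by
    by_contra hcon
    push Not at hcon
    have hcert := certUp_of_robust hp.2 (k n)
    obtain ⟨A2, V, hA2, hV, -, -, hVc, hrun⟩ := settle hcert M0.toM N.toM e (n ^ d0 + d0) w0
      (M0.toM.init x) n (fun r => by have := init_len M0.toM x r; omega)
      (fun q hq => by
        have h1 : q.length ≤ b n := hq
        have := Nat.pow_le_pow_left h1 e
        simp only [hk]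
        omega) p.A0 ∅ hp.1 (by simp)
    have hV3 : 3 * V.card ≤ 2 ^ n := by
      simp only [Finset.card_empty, zero_add] at hVc
      have : 3 * V.card ≤ 3 * ((n ^ d0 + d0) * (k n * (k n + 1))) := Nat.mul_le_mul_left _ hVc
      omega
    obtain ⟨B1, hB1, hag1, hL1⟩ := block hA2 V hV n hn hV3 True
    obtain ⟨B2, hB2, hag2, hL2⟩ := block hA2 V hV n hn hV3 False
    have e1 := hrun B1 hB1 hag1
    have e2 := hrun B2 hB2 hag2
    have hL : ∀ B : Set (List Bool), x ∈ L1 B ↔ 2 * 2 ^ n ≤ 3 * (dset n B).card := by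
      intro B
      unfold L1
      rw [Set.mem_ofPred_eq]
      rw [hxl]
    have hm1 : x ∈ L1 B1 := (hL B1).2 (hL1.2 trivial)
    have hm2 : x ∉ L1 B2 := fun h => hL2.1 ((hL B2).1 h)
    have ha1 := (hcon B1 hB1).1 hm1
    have ha2 : Acc M0.toM d0 (BN N.toM e B2) x w0 := by
      unfold Acc at ha1 ⊢
      rw [hxl] at ha1 ⊢
      rw [e2]
      rw [e1] at ha1
      exact ha1
    exact hm2 ((hcon B2 hB2).2 ha2)
  obtain ⟨q, h1, h2, h3⟩ := stage_local hp (fun A => ¬ (x ∈ L1 A ↔
    Acc M0.toM d0 (BN N.toM e A) x w0)) (k n + 1 + (n + 2)) hloc hex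
  exact ⟨q, h1, h2, fun A hA => ⟨x, h3 A hA⟩⟩

end Pool.Agent.H552R2
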