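import Pool.Agent.H552R2.Enum

/-!
Tasks: pairs of machines whose common language is to be coded, their semantics, and the
strings used for coding.
-/

namespace Pool.Agent.H552R2

open Function
open Pool.Agent.Helper556.OM

/-- the language accepted by a nondeterministic machine with a clock, relative to `A` -/
def BN (N : Machine) (e : ℕ) (A : Set (List Bool)) : Set (List Bool) := {q | AccN N e A q}

/-- a task: `kind = true` is a pair of nondeterministic machines `(M, d)`, `(N, e)` for a language
and its complement; `kind = false` is a probabilistic machine `(M, d)` together with a machine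
`(M0, d0)` with oracle the language of `(N, e)` -/
structure Task : Type where
  kind : Bool
  M : FM
  d : ℕ
  M0 : FM
  d0 : ℕ
  N : FM
  e : ℕ

instance : Countable Task := by
  have : Injective (fun s : Task => (s.kind, s.M, s.d, s.M0, s.d0, s.N, s.e)) := by
    intro s s' h
    cases s; cases s'
    simp only [Prod.mk.injEq] at h
    obtain ⟨rfl, rfl, rfl, rfl, rfl, rfl, rfl⟩ := h
    rfl
  exact this.countable

instance : Inhabited Task := ⟨⟨true, default, 0, default, 0, default, 0⟩⟩

/-- the zero sequence of choices -/
def w0 : ℕ → Bool := fun _ => false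

/-- the value to be coded -/
def Task.val (s : Task) (A : Set (List Bool)) (x : List Bool) : Prop :=
  if s.kind = true then AccN s.M.toM s.d A x
  else Acc s.M0.toM s.d0 (BN s.N.toM s.e A) x w0

open Classical in
/-- the two machines of the task are in order on input `x` -/
def Task.ok (s : Task) (A : Set (List Bool)) (x : List Bool) : Prop :=
  if s.kind = true then (AccN s.M.toM s.d A x ↔ ¬ AccN s.N.toM s.e A x)
  else 2 * 2 ^ (x.length ^ s.d + s.d) ≤ 3 * (Finset.univ.filter
    (fun w : Fin (x.length ^ s.d + s.d) → Bool => (Acc s.M.toM s.d A x (ext w) ↔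
      Acc s.M0.toM s.d0 (BN s.N.toM s.e A) x w0))).card

/-- bound for the length of the strings asked by `M0` -/
def Task.b (s : Task) (n : ℕ) : ℕ := n + (n ^ s.d0 + s.d0)

/-- bound for everything -/
def Task.t (s : Task) (n : ℕ) : ℕ :=
  (n + (n ^ s.d + s.d)) + (s.b n + ((s.b n) ^ s.e + s.e))

theorem BN_congr (N : Machine) (e : ℕ) {A A' : Set (List Bool)} (k : ℕ)
    (h : ∀ z : List Bool, z.length ≤ k + (k ^ e + e) → (z ∈ A ↔ z ∈ A'))
    (q : List Bool) (hq : q.length ≤ k) : q ∈ BN N e A ↔ q ∈ BN N e A' := by
  refine AccN_congr N e q (fun z hz => h z (hz.trans ?_))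
  have := Nat.pow_le_pow_left hq e
  omega

theorem val_congr (s : Task) {A A' : Set (List Bool)} (x : List Bool)
    (h : ∀ z : List Bool, z.length ≤ s.t x.length → (z ∈ A ↔ z ∈ A')) :
    s.val A x ↔ s.val A' x := by
  unfold Task.val
  split_ifs
  · exact AccN_congr _ _ _ (fun z hz => h z (by unfold Task.t; omega))
  · refine Acc_congr _ _ _ _ (fun q hq => ?_)
    exact BN_congr _ _ (s.b x.length) (fun z hz => h z (by unfold Task.t; omega)) q
      (Qs_len _ _ _ _ _ _ hq)

theorem ok_congr (s : Task) {A A' : Set (List Bool)} (x : List Bool)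
    (h : ∀ z : List Bool, z.length ≤ s.t x.length → (z ∈ A ↔ z ∈ A')) :
    s.ok A x ↔ s.ok A' x := by
  classical
  have hN : ∀ q : List Bool, q.length ≤ s.b x.length →
      (AccN s.N.toM s.e A q ↔ AccN s.N.toM s.e A' q) := fun q hq =>
    BN_congr s.N.toM s.e (s.b x.length) (fun z hz => h z (by unfold Task.t; omega)) q hq
  unfold Task.ok
  split_ifs
  · have h1 := AccN_congr s.M.toM s.d (A := A) (A' := A') x
      (fun z hz => h z (by unfold Task.t; omega))
    have h2 := hN x (by unfold Task.b; omega)
    rw [h1, h2]
  · have h1 : ∀ w : ℕ → Bool, Acc s.M.toM s.d A x w ↔ Acc s.M.toM s.d A' x w := fun w =>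
      Acc_congr _ _ _ _ (fun z hz => h z (by
        have := Qs_len _ _ _ _ _ _ hz
        unfold Task.t; omega))
    have h2 : Acc s.M0.toM s.d0 (BN s.N.toM s.e A) x w0 ↔
        Acc s.M0.toM s.d0 (BN s.N.toM s.e A') x w0 :=
      Acc_congr _ _ _ _ (fun q hq => hN q (Qs_len _ _ _ _ _ _ hq))
    simp only [h1, h2]

/-! ### codes -/

/-- length of the padding -/
def Task.pad (s : Task) (m n : ℕ) : ℕ := 500 * (s.t n + 1) ^ 6 + m

/-- the string coding the value of task `s` (with number `i`) at `x` -/
def codeStr (s : Task) (i m : ℕ) (x : List Bool) : List Bool :=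
  true :: true :: (List.replicate i false ++
    (true :: (x ++ (true :: List.replicate (s.pad m x.length) false))))

theorem rep_true_inj {a b : ℕ} {u v : List Bool}
    (h : List.replicate a false ++ (true :: u) = List.replicate b false ++ (true :: v)) :
    a = b ∧ u = v := by
  induction a generalizing b with
  | zero =>
      cases b with
      | zero => simpa using h
      | succ b => simp [List.replicate_succ] at h
  | succ a ih =>
      cases b with
      | zero => simp [List.replicate_succ] at h
      | succ b =>
          simp only [List.replicate_succ, List.cons_append, List.cons.injEq, true_and] at h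
          obtain ⟨h1, h2⟩ := ih h
          exact ⟨by omega, h2⟩

theorem append_rep_inj {a b : ℕ} {u v : List Bool}
    (h : u ++ (true :: List.replicate a false) = v ++ (true :: List.replicate b false)) :
    u = v := by
  have h1 := congrArg List.reverse h
  simp only [List.reverse_append, List.reverse_cons, List.reverse_replicate,
    List.append_assoc, List.singleton_append] at h1
  have h2 := (rep_true_inj h1).2
  have := congrArg List.reverse h2
  simpa using this

theorem codeStr_inj {s s' : Task} {i i' m m' : ℕ} {x x' : List Bool}
    (h : codeStr s i m x = codeStr s' i' m' x') : i = i' ∧ x = x' := by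
  unfold codeStr at h
  simp only [List.cons.injEq, true_and] at h
  obtain ⟨h1, h2⟩ := rep_true_inj h
  exact ⟨h1, append_rep_inj h2⟩

theorem codeStr_length (s : Task) (i m : ℕ) (x : List Bool) :
    (codeStr s i m x).length = i + x.length + s.pad m x.length + 4 := by
  simp only [codeStr, List.length_cons, List.length_append, List.length_replicate]
  omega

theorem t_lt_pad (s : Task) (m n : ℕ) : s.t n < s.pad m n := by
  unfold Task.pad
  have h : s.t n + 1 ≤ (s.t n + 1) ^ 6 := Nat.le_self_pow (by norm_num) _
  omega

end Pool.Agent.H552R2
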